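import Pool.Agent.MP_da1f04_co.S91.Low
import Pool.Agent.MP_da1f04_co.H91Main

/-! The exponent of the iterated logarithm. -/

set_option autoImplicit false

namespace Pool.Agent.MP_da1f04_co.S91

open SimpleGraph Filter Asymptotics

theorem Cl.base_mono {C C' : GClass} (hT : ∀ (V : Type) (G : SimpleGraph V), C V G → C' V G)
    {k : ℕ} {V : Type} {G : SimpleGraph V} (h : Cl C k V G) : Cl C' k V G := by
  induction h with
  | base V G h1 h2 => exact .base V G h1 (hT V G h2)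
  | iso V W G H _ e ih => exact .iso V W G H ih e
  | subst V G s v h1 h2 _ _ h3 h4 => exact .subst V G s v h1 h2 h3 h4
  | glue V G a b h1 h2 h3 _ _ h4 h5 => exact .glue V G a b h1 h2 h3 h4 h5

/-- The lower bound in a form that covers every clique number. -/
theorem low' (m : ℕ) : ∃ c : ℕ, ∀ s : ℕ, ∃ (W : Type) (G : SimpleGraph W) (r : ℕ),
    Cl Tiny 2 W G ∧ G.CliqueFree (m + 2) ∧ Nat.card W ≤ 2 ^ 2 ^ s ∧ Hard G r ∧
      (s + 1) ^ m ≤ c * r * (Nat.log 2 (s + 1) + 1) ^ (m - 1) := by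
  rcases m with _ | p
  · exact ⟨1, fun s => ⟨Unit, ⊥, 1, tiny (by simp) _, cliqueFree_bot le_rfl,
      by simpa using Nat.one_le_two_pow, hard_unit, by simp⟩⟩
  · obtain ⟨c, -, hc⟩ := low p
    refine ⟨c, fun s => ?_⟩
    obtain ⟨W, G, r, h1, h2, h3, h4, h5⟩ := hc s
    exact ⟨W, G, r, h1, h2, (Nat.le_succ _).trans h3, h4, h5⟩

theorem log_le (s : ℕ) (hs : 2 ≤ s) : ((Nat.log 2 (s + 1) + 1 : ℕ) : ℝ) ≤ 6 * Real.log s := by
  have h1 : 2 ^ (Nat.log 2 (s + 1) + 1) ≤ s ^ 3 := by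
    have := Nat.pow_log_le_self 2 (show s + 1 ≠ 0 by omega)
    rw [pow_succ]
    nlinarith [Nat.mul_le_mul hs hs, Nat.mul_le_mul (Nat.mul_le_mul hs hs) (le_refl s)]
  have h2 : Real.log ((2 : ℝ) ^ (Nat.log 2 (s + 1) + 1)) ≤ Real.log ((s : ℝ) ^ 3) :=
    Real.log_le_log (by positivity) (by exact_mod_cast h1)
  rw [Real.log_pow, Real.log_pow] at h2
  have h3 := Real.log_two_gt_d9
  have h4 : (0 : ℝ) ≤ ((Nat.log 2 (s + 1) + 1 : ℕ) : ℝ) := Nat.cast_nonneg _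
  push_cast at h2 h4 ⊢
  nlinarith

theorem growth (m p : ℕ) (θ c : ℝ)
    (h : ∀ s : ℕ, 2 ≤ s → (s : ℝ) ^ m ≤ c * (s : ℝ) ^ θ * Real.log s ^ p) : (m : ℝ) ≤ θ := by
  by_contra hlt
  have hε : 0 < (m : ℝ) - θ := sub_pos.2 (not_le.1 hlt)
  have h1 := (isLittleO_log_rpow_rpow_atTop (p : ℝ) hε).comp_tendsto tendsto_natCast_atTop_atTop
  have h2 := h1.bound (show 0 < 1 / (|c| + 1) by positivity)
  obtain ⟨s, h3, h4⟩ := (h2.and (eventually_ge_atTop 2)).exists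
  have hs : (0 : ℝ) < s := by exact_mod_cast (by omega : 0 < s)
  have hl : 0 ≤ Real.log s := Real.log_natCast_nonneg s
  simp only [Function.comp, Real.rpow_natCast, Real.norm_eq_abs] at h3
  rw [abs_of_nonneg (pow_nonneg hl _), abs_of_nonneg (Real.rpow_nonneg hs.le _),
    Real.rpow_sub hs, Real.rpow_natCast] at h3
  have h5 := h s h4
  have h6 : 0 < (s : ℝ) ^ θ := Real.rpow_pos_of_pos hs _
  have h7 : 0 < (s : ℝ) ^ m := pow_pos hs _
  have h8 : (|c| + 1) * (s : ℝ) ^ θ * Real.log s ^ p ≤ (s : ℝ) ^ m := by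
    have : (|c| + 1) * (s : ℝ) ^ θ * (1 / (|c| + 1) * ((s : ℝ) ^ m / (s : ℝ) ^ θ)) =
        (s : ℝ) ^ m := by field_simp
    rw [← this]
    exact mul_le_mul_of_nonneg_left h3 (by positivity)
  have h9 : 0 < (s : ℝ) ^ θ * Real.log s ^ p :=
    mul_pos h6 (pow_pos (Real.log_pos (by exact_mod_cast (by omega : 1 < s))) _)
  nlinarith [le_abs_self c, mul_le_mul_of_nonneg_right (le_abs_self c) h9.le]

theorem exponent (C : GClass) (hC : ChiBounded C)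
    (hT : ∀ (V : Type) (G : SimpleGraph V), Tiny V G → C V G) (k m : ℕ) (hk : 2 ≤ k) (θ : ℝ) :
    (∃ c : ℝ, ∀ (U W : Type) (J : SimpleGraph U) (H : SimpleGraph W), Cl C k W H →
      Nonempty (J ↪g H) → J.CliqueFree (m + 2) → ∀ s : ℕ, 1 ≤ s →
        Nat.card U ≤ 2 ^ (2 ^ s) → J.Colorable ⌊c * (s : ℝ) ^ θ⌋₊) ↔ (m : ℝ) ≤ θ := by
  constructor
  · rintro ⟨c, hc⟩
    obtain ⟨c₀, h₀⟩ := low' m
    refine growth m (m - 1) θ (c₀ * |c| * 6 ^ (m - 1)) fun s hs => ?_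
    obtain ⟨W, G, r, h1, h2, h3, h4, h5⟩ := h₀ s
    have h6 := h4 _ (hc W W G G (Cl.base_mono hT (h1.mono hk)) ⟨.refl⟩ h2 s (by omega) h3)
    have hs0 : (0 : ℝ) ≤ (s : ℝ) ^ θ := Real.rpow_nonneg (Nat.cast_nonneg _) _
    have h7 : (r : ℝ) ≤ |c| * (s : ℝ) ^ θ :=
      (Nat.cast_le.2 (h6.trans (Nat.floor_mono
        (mul_le_mul_of_nonneg_right (le_abs_self c) hs0)))).trans (Nat.floor_le (by positivity))
    have h8 : (s : ℝ) ^ m ≤ c₀ * r * ((Nat.log 2 (s + 1) + 1 : ℕ) : ℝ) ^ (m - 1) := by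
      exact_mod_cast (Nat.pow_le_pow_left (Nat.le_succ s) m).trans h5
    refine h8.trans ?_
    have h9 := pow_le_pow_left₀ (Nat.cast_nonneg _) (log_le s hs) (m - 1)
    rw [mul_pow] at h9
    calc _ ≤ c₀ * (|c| * (s : ℝ) ^ θ) * (6 ^ (m - 1) * Real.log s ^ (m - 1)) := by gcongr
      _ = _ := by ring
  · intro hm
    obtain ⟨c, hc⟩ := H91.loglog C hC k m
    refine ⟨c, fun U W J H h e cf s hs hn => (hc U W J H h e cf s hs hn).mono (Nat.le_floor ?_)⟩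
    push_cast
    rw [← Real.rpow_natCast]
    exact mul_le_mul_of_nonneg_left
      (Real.rpow_le_rpow_of_exponent_le (by exact_mod_cast hs) hm) (Nat.cast_nonneg _)

end Pool.Agent.MP_da1f04_co.S91
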