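import Pool.Agent.MP_da1f04_co.S91.Spec

/-! The last step of a level. -/

set_option autoImplicit false

namespace Pool.Agent.MP_da1f04_co.S91

open Set Function I91

theorem fin : FinSt := by
  intro V X Z _ lam π z b E k W S L hS hT
  classical
  have hl : ∀ a : X, ∃ p : Nd, ∀ u, π u = a → lam u = p := fun a => by
    by_cases h : ∃ u, π u = a
    · obtain ⟨u, rfl⟩ := h
      exact ⟨lam u, fun v e => L.lf v u e⟩
    · exact ⟨[], fun u e => (h ⟨u, e⟩).elim⟩
  choose lf hlf using hl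
  have tails : ∀ t, (π '' {u | ∃ x, E u x t}).ncard ≤ W := fun t => by
    rcases eq_empty_or_nonempty {u | ∃ x, E u x t} with h | ⟨u₀, x₀, h₀⟩
    · simp [h]
    refine le_trans (ncard_le_ncard (image_mono ?_) (toFinite _)) (hT (z u₀))
    rintro u ⟨x, h⟩
    exact ⟨(hS u x t h).1, L.one u x t u₀ x₀ t t h h₀ (L.ev u x t h).2.2 List.prefix_rfl
      (L.ev u₀ x₀ t h₀).2.2 List.prefix_rfl⟩
  have hex : ∀ p : X × X, ∃ t, ∀ t', t' ++ [true] <+: lf p.1 →
      t' ++ [false] <+: lf p.2 → t = t' := fun p => by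
    by_cases h : ∃ t, t ++ [true] <+: lf p.1 ∧ t ++ [false] <+: lf p.2
    · obtain ⟨t, h1, h2⟩ := h
      exact ⟨t, fun t' h3 h4 => meet_unique h2 h1 h4 h3⟩
    · exact ⟨[], fun t' h3 h4 => (h ⟨t', h3, h4⟩).elim⟩
  choose f hf using hex
  obtain ⟨φ, hφ⟩ := deg_aux (fun a c => ∃ u x t, E u x t ∧ π u = a ∧ π x = c) (W * k)
    (finite_range π).toFinset fun A hA' => by
      have hA : A.Finite := (Finset.finite_toSet _).subset hA'
      obtain ⟨hM, hMc⟩ := meet_card (hA.image lf)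
      refine (ncard_fib hM f (W * k) ?_ ((hA.prod hA).subset fun p hp => ⟨hp.1, hp.2.1⟩)
        fun t _ => ?_).trans (Nat.mul_le_mul_left _ (hMc.trans (ncard_image_le hA)))
      · rintro p ⟨h1, h2, u, v, t, h, e1, e2⟩
        have a1 : t ++ [true] <+: lf p.1 := hlf _ u e1 ▸ (L.ev u v t h).1
        have a2 : t ++ [false] <+: lf p.2 := hlf _ v e2 ▸ (L.ev u v t h).2.1
        rw [hf p t a1 a2]
        exact ⟨_, ⟨_, h2, rfl⟩, _, ⟨_, h1, rfl⟩, a2, a1⟩
      · refine le_trans (ncard_le_ncard (t := (π '' {u | ∃ x, E u x t}) ×ˢ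
          (π '' {x | ∃ u, E u x t})) ?_ ((toFinite _).prod (toFinite _))) ?_
        · rintro p ⟨⟨-, -, u, v, t', h, e1, e2⟩, e⟩
          have a1 : t' ++ [true] <+: lf p.1 := hlf _ u e1 ▸ (L.ev u v t' h).1
          have a2 : t' ++ [false] <+: lf p.2 := hlf _ v e2 ▸ (L.ev u v t' h).2.1
          obtain rfl : t = t' := e.symm.trans (hf p t' a1 a2)
          exact ⟨⟨u, ⟨v, h⟩, e1⟩, v, ⟨u, h⟩, e2⟩
        · rw [ncard_prod]
          exact Nat.mul_le_mul (tails t) (L.heads t)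
  refine ⟨fun a => φ a, fun a => (φ a).2, fun u x t h e => hφ (π u) (by simp) (π x) (by simp)
    (fun e' => ?_) ⟨u, x, t, h, rfl, rfl⟩ (Fin.ext e)⟩
  exact not_both (L.ev u x t h).1 (L.lf u x e' ▸ (L.ev u x t h).2.1)

end Pool.Agent.MP_da1f04_co.S91
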