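import Pool.Agent.MP_da1f04_co.S91.Spec
import Pool.Agent.MP_da1f04_co.I91.Xa

/-! A home tree splits into boundedly many clean structures. -/

set_option autoImplicit false

namespace Pool.Agent.MP_da1f04_co.S91

open Set Function I91

namespace Home

variable {V : Type} {G : SimpleGraph V} {q k w c : ℕ} {lam : V → Nd} {D : Nd → Set V}
  {cl : Nd → V → Set V} {col : V → ℕ} {s t : Nd} {u v : V}

theorem kill_sub {U β : Type} {A : Set β} (hA : A.Finite) {n : ℕ} (hn : A.ncard ≤ n)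
    (ψ : U → Set β) (hψ : ∀ u, ψ u ⊆ A) : Kill (fun u v => ψ u ≠ ψ v) (2 ^ n) := by
  haveI : Finite (𝒫 A) := hA.powerset
  refine Kill.of_card (α := 𝒫 A) (fun u => ⟨ψ u, hψ u⟩)
    (fun u v h e => h (congrArg Subtype.val e)) ?_
  rw [Nat.card_coe_set_eq, ncard_powerset _ hA]
  exact Nat.pow_le_pow_right two_pos hn

/-- The whole leaf class is clean. -/
def AC (G : SimpleGraph V) (lam : V → Nd) (D : Nd → Set V) (cl : Nd → V → Set V) (u : V)
    (s : Nd) : Prop := ∀ u', lc lam cl u' = lc lam cl u → Clean G lam D cl u' s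

/-- The clean out-neighbourhood. -/
def Oc (G : SimpleGraph V) (lam : V → Nd) (D : Nd → Set V) (cl : Nd → V → Set V) (u : V) :
    Set V := {y | ∃ t, out G lam u y t ∧ AC G lam D cl u t}

theorem AC.up (T : HT G q k w c lam D cl col) (hs : s <+: t) (ht : t <+: lam u)
    (h : AC G lam D cl u t) : AC G lam D cl u s := fun u' e =>
  Xa.clean_up T hs ((show lam u' = lam u from congrArg Prod.fst e) ▸ ht) (h u' e)

theorem head_sub (T : HT G q k w c lam D cl col) (hv : t ++ [true] <+: lam v)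
    (e : cl t '' {y | out G lam u y t} = cl t '' {y | out G lam v y t}) :
    {y | out G lam u y t} ⊆ {y | out G lam v y t} := fun y hy => by
  obtain ⟨y', h1, h2⟩ : cl t y ∈ cl t '' {y | out G lam v y t} := e ▸ ⟨y, hy, rfl⟩
  have h1 : out G lam v y' t := h1
  have hy : out G lam u y t := hy
  exact ⟨(T.modu t y' (T.home _ _ h1.pre') y (T.home _ _ hy.pre') v (T.home _ _ h1.pre) h2
    (fun e' => h1.lam_ne (T.same t y' v h1.pre' h1.pre e').symm) h1.1.symm).symm, hv, hy.2.2⟩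

theorem nbhd [Finite V] (T : HT G q k w c lam D cl col) :
    Kill (fun u v => Oc G lam D cl u ≠ Oc G lam D cl v ∧ lc lam cl u = lc lam cl v)
      (2 ^ w * 2 ^ k) := by
  refine Kill.parts (lc lam cl) fun a => ?_
  have hl : ∀ u : {v // lc lam cl v = a}, lam u.1 = a.1 := fun u => congrArg Prod.fst u.2
  let P : Set Nd := {t | ∃ u y, lc lam cl u = a ∧ out G lam u y t ∧ AC G lam D cl u t}
  rcases P.eq_empty_or_nonempty with h0 | h0
  · have key : ∀ u : {v // lc lam cl v = a}, Oc G lam D cl u.1 = ∅ := fun u =>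
      eq_empty_of_forall_notMem fun y ⟨t, h, h'⟩ => (h0 ▸ (⟨u.1, y, u.2, h, h'⟩ : t ∈ P) : t ∈ (∅ : Set Nd))
    exact ⟨fun _ => ⟨0, by positivity⟩, fun u v h => (h ((key u).trans (key v).symm)).elim⟩
  have hp : ∀ t ∈ P, t ++ [true] <+: a.1 := fun t ⟨u, y, e, h, _⟩ => hl ⟨u, e⟩ ▸ h.2.1
  obtain ⟨t, ht, hm⟩ := exists_max_image P List.length
    ((List.finite_toSet a.1.inits).subset fun t ht =>
      (List.mem_inits _ _).2 ((pre_app _ _).trans (hp t ht))) h0
  have h1 : ∀ u : {v // lc lam cl v = a}, t ++ [true] <+: lam u.1 := fun u => hl u ▸ hp t ht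
  have h2 : ∀ u : {v // lc lam cl v = a}, AC G lam D cl u.1 t := fun u u' e => by
    obtain ⟨u₀, -, e₀, -, h⟩ := ht
    exact h u' ((e.trans u.2).trans e₀.symm)
  have key : ∀ u : {v // lc lam cl v = a},
      Oc G lam D cl u.1 = past G lam u.1 t ∪ {y | out G lam u.1 y t} := fun u => by
    have h3 : t <+: lam u.1 := (pre_app _ _).trans (h1 u)
    ext y
    constructor
    · rintro ⟨t', h, h'⟩
      have h4 : t' <+: t := pre_of_len h.pre h3 (hm t' ⟨u.1, y, u.2, h, h'⟩)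
      rcases pre_or_app h3 h.2.1 with h5 | h5
      · exact Or.inr (pre_antisymm h4 h5 ▸ h)
      · exact Or.inl ((mem_past h3).2 ⟨t', h5, h⟩)
    · rintro (h | h)
      · obtain ⟨t', h5, h⟩ := (mem_past h3).1 h
        exact ⟨t', h, (h2 u).up T ((pre_app _ _).trans h5) h3⟩
      · exact ⟨t, h, h2 u⟩
  have k1 := kill_sub (toFinite _) (T.wt t)
    (fun u : {v // lc lam cl v = a} => cl t '' past G lam u.1 t)
    fun u => image_mono fun y hy => ⟨(h2 u _ rfl y hy).1, Or.inl hy.2⟩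
  have k2 := kill_sub (toFinite _) (T.targ t)
    (fun u : {v // lc lam cl v = a} => cl t '' {y | out G lam u.1 y t})
    fun u => image_mono fun y hy => ⟨u.1, hy⟩
  refine (k1.or k2).imp fun u v h => by_contra fun hn => h ?_
  obtain ⟨e1, e2⟩ := not_or.1 hn
  have e1 := not_not.1 e1
  have e2 := not_not.1 e2
  rw [key, key, subset_antisymm
    (Xa.past_sub T ((pre_app _ _).trans (h1 v)) (h2 u _ rfl) (h2 v _ rfl) e1)
    (Xa.past_sub T ((pre_app _ _).trans (h1 u)) (h2 v _ rfl) (h2 u _ rfl) e1.symm),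
    subset_antisymm (head_sub T (h1 v) e2) (head_sub T (h1 u) e2.symm)]

theorem leaf (T : HT G q k w c lam D cl col) :
    Kill (fun u v => G.Adj u v ∧ lam u = lam v ∧ lc lam cl u ≠ lc lam cl v) c :=
  ⟨fun v => ⟨col v, T.lt v⟩, fun u v ⟨a, e, n⟩ e' => T.ne u v e
    (fun e'' => n (Xa.lc_eq T List.prefix_rfl (e ▸ List.prefix_rfl) e'')) a (congrArg Fin.val e')⟩

theorem cs [Finite V] (T : HT G q k w c lam D cl col) {V' : Type} (f : V' → V) (hf : Injective f)
    (h1 : ∀ a b, G.Adj (f a) (f b) → lam (f a) = lam (f b) → lc lam cl (f a) = lc lam cl (f b))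
    (h2 : ∀ a b t, out G lam (f a) (f b) t → AC G lam D cl (f a) t)
    (h3 : ∀ a b, lc lam cl (f a) = lc lam cl (f b) → Oc G lam D cl (f a) = Oc G lam D cl (f b)) :
    CS (G.comap f) (lam ∘ f) (lc lam cl ∘ f) (fun t u => cl t (f u))
      (fun u s => AC G lam D cl (f u) s) k (2 ^ w) where
  lf a b e := congrArg Prod.fst e
  adj a b h := by
    by_cases e : lam (f a) = lam (f b)
    · exact Or.inl (h1 a b h e)
    have hi : Inc (lam (f a)) (lam (f b)) :=
      ⟨fun h' => e (T.chain _ _ h'), fun h' => e (T.chain _ _ h').symm⟩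
    obtain ⟨t, h' | h'⟩ := exists_meet hi
    · exact Or.inr (Or.inl ⟨t, h, h'⟩)
    · exact Or.inr (Or.inr ⟨t, h.symm, h'⟩)
  mod a b y e h := by
    obtain ⟨t, h⟩ := h
    have h : out G lam (f a) (f y) t := h
    obtain ⟨t', h', -⟩ : f y ∈ Oc G lam D cl (f b) := h3 a b e ▸ ⟨t, h, h2 a y t h⟩
    exact h'.1
  targ t := by
    refine le_trans (ncard_le_ncard ?_ (toFinite _)) (T.targ t)
    rintro _ ⟨x, ⟨a, h⟩, rfl⟩
    exact ⟨f x, ⟨f a, h⟩, rfl⟩
  twin t a x a' x' h h' e := by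
    have h : out G lam (f a) (f x) t := h
    have h' : out G lam (f a') (f x') t := h'
    refine ⟨Xa.lc_eq T h.pre' h'.pre' e, fun y e' hy => ?_⟩
    have d : f y ∈ D t :=
      T.home _ _ ((show lam (f y) = lam (f x) from congrArg Prod.fst e') ▸ h.pre')
    by_cases e1 : cl t (f x) = cl t (f y)
    · exact Or.inr (T.modu t _ (T.home _ _ h.pre') _ d _ (T.home _ _ h.pre) e1
        (fun e2 => h.lam_ne (T.same t _ _ h.pre' h.pre e2).symm) h.1.symm).symm
    · exact Or.inl (T.modu t _ (T.home _ _ h.pre') _ (T.home _ _ h'.pre') _ d e e1 hy)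
  live a x t s h hs := (h2 a x t h).up T hs (out.pre (G := G) (lam := lam) (x := f x) h)
  keys s := by
    haveI := Finite.of_injective f hf
    refine (G91.factor_le _ _ (fun a => cl s '' past G lam (f a) s) ?_).trans
      (le_trans (ncard_le_ncard (t := 𝒫 (cl s '' {u | u ∈ D s ∧ (u ∈ arr lam s ∨
        (s <+: lam u ∧ ¬ past G lam u s ⊆ D s))})) ?_ (toFinite _)) ?_)
    · intro a ha b hb e
      change f ⁻¹' past G lam (f a) s = f ⁻¹' past G lam (f b) s
      rw [subset_antisymm (Xa.past_sub T hb.1 (ha.2 _ rfl) (hb.2 _ rfl) e)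
        (Xa.past_sub T ha.1 (hb.2 _ rfl) (ha.2 _ rfl) e.symm)]
    · rintro _ ⟨a, ha, rfl⟩
      exact image_mono fun y hy => ⟨(ha.2 _ rfl y hy).1, Or.inl hy.2⟩
    · rw [ncard_powerset _ (toFinite _)]
      exact Nat.pow_le_pow_right two_pos (T.wt s)
  dead s := by
    refine le_trans (ncard_le_ncard ?_ (toFinite _)) ((Xa.tails T s).trans Nat.lt_two_pow_self.le)
    rintro _ ⟨a, ⟨h, h'⟩, rfl⟩
    obtain ⟨u, e, hu⟩ : ∃ u, lc lam cl u = lc lam cl (f a) ∧ ¬ Clean G lam D cl u s := by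
      by_contra hn
      exact h' fun u e => by_contra fun hu => hn ⟨u, e, hu⟩
    exact ⟨u, ⟨(show lam u = lam (f a) from congrArg Prod.fst e) ▸ h, hu⟩, e⟩

end Home

theorem home : HomeSt := by
  intro k w c
  refine ⟨c * (2 * (w * k) + 1) * (2 ^ w * 2 ^ k), fun V _ G q lam D cl col T => ?_⟩
  obtain ⟨φ, hφ⟩ := ((Home.leaf T).or (Xa.unclean T)).or (Home.nbhd T)
  refine ⟨φ, fun V' f hf e => Home.cs T f hf (fun a b h h' => ?_) (fun a b t h u h' => ?_)
    fun a b h => ?_⟩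
  · exact by_contra fun hn => hφ _ _ (Or.inl (Or.inl ⟨h, h', hn⟩)) (e a b)
  · exact by_contra fun hn => hφ _ _ (Or.inl (Or.inr ⟨t, h, u, h', hn⟩)) (e a b)
  · exact by_contra fun hn => hφ _ _ (Or.inr ⟨hn, h⟩) (e a b)

end Pool.Agent.MP_da1f04_co.S91
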