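import Pool.Agent.MP_da1f04_co.S91.Spec

/-! The edges inside the zones. -/

set_option autoImplicit false

namespace Pool.Agent.MP_da1f04_co.S91

open Set Function I91

namespace Inn

variable {V X Y : Type} {G : SimpleGraph V} {lam : V → Nd} {π : V → X} {cl : Nd → V → Y}
  {al : V → Nd → Prop} {k g : ℕ} {κ : V → ℕ} {a A : ℕ}

theorem zone_eq (C : CS G lam π cl al k g) {u v : V} (h : π u = π v) :
    zone G lam u = zone G lam v := by
  have key : ∀ u v, π u = π v → past G lam u (lam u) ⊆ past G lam v (lam v) := fun u v h y hy =>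
    ⟨C.mod u v y h (mem_past_leaf.1 hy), C.lf u v h ▸ hy.2⟩
  exact fs_k0 (Prod.ext (C.lf u v h) (Subset.antisymm (key u v h) (key v u h.symm)))

theorem inn_le : inner G lam ≤ G := fun _ _ h => h.1

theorem out_le {u x : V} {t : Nd} (h : out (inner G lam) lam u x t) : out G lam u x t :=
  ⟨h.1.1, h.2⟩

theorem cs [Finite V] (C : CS G lam π cl al k g) : CS (inner G lam) lam π cl al k g where
  lf := C.lf
  adj u v h := (C.adj u v h.1).imp id (Or.imp (fun ⟨t, e⟩ => ⟨t, h, e.2⟩)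
    fun ⟨t, e⟩ => ⟨t, h.symm, e.2⟩)
  mod u v y h := fun ⟨t, e⟩ => ⟨C.mod u v y h ⟨t, out_le e⟩, (zone_eq C h).symm.trans e.1.2⟩
  targ t := le_trans (ncard_le_ncard (image_mono fun _ h => h.imp fun _ => out_le) (toFinite _))
    (C.targ t)
  twin t u x u' x' h h' e := by
    obtain ⟨h1, h2⟩ := C.twin t u x u' x' (out_le h) (out_le h') e
    exact ⟨h1, fun v hv e' => (h2 v hv e'.1).imp
      (fun l => ⟨l, zone_eq C (hv.trans h1).symm⟩) fun l => ⟨l, h.1.2.trans e'.2⟩⟩
  live u x t s h := C.live u x t s (out_le h)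
  keys s := by
    have key : ∀ u w, s <+: lam u → s <+: lam w → past G lam u s = past G lam w s →
        past (inner G lam) lam u s ⊆ past (inner G lam) lam w s := fun u w hu hw e y hy => by
      have h1 : y ∈ past G lam u s := ⟨hy.1.1, hy.2⟩
      exact ⟨⟨(e ▸ h1 : y ∈ past G lam w s).1,
        (zone_congr hu hw e ⟨y, h1⟩).symm.trans hy.1.2⟩, hy.2⟩
    exact (G91.factor_le _ _ (fun u => past G lam u s) fun u hu w hw e =>
      Subset.antisymm (key u w hu.1 hw.1 e) (key w u hw.1 hu.1 e.symm)).trans (C.keys s)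
  dead := C.dead

theorem ty (C : CS G lam π cl al k g) (T : Ty G π κ a A) : Ty (inner G lam) π κ a A where
  free u := SimpleGraph.CliqueFreeOn.anti _ _ inn_le (T.free u)
  big u := by
    obtain ⟨K, h1, h2⟩ := T.big u
    exact ⟨K, ⟨fun v hv w hw e => ⟨h1.1 hv hw e, zone_eq C ((h2 v hv).trans (h2 w hw).symm)⟩,
      h1.2⟩, h2⟩
  lt := T.lt
  ne u v h e := T.ne u v h e.1
  tw u v h e := T.tw u v h fun y hy =>
    ⟨fun l => ((e y hy).1 ⟨l, zone_eq C hy.symm⟩).1,
      fun l => ((e y hy).2 ⟨l, zone_eq C (hy.trans h).symm⟩).1⟩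

theorem drop (C : CS G lam π cl al k g) (T : Ty G π κ a A) (d : ℕ)
    (h : G.CliqueFree (a + d + 2)) : (inner G lam).CliqueFree (a + d + 1) := by
  classical
  intro K hK
  obtain ⟨u, hu⟩ : K.Nonempty := Finset.card_pos.1 (by rw [hK.2]; omega)
  have hG : G.IsNClique (a + d + 1) K := hK.mono inn_le
  have hz : ∀ v ∈ K, zone G lam v = zone G lam u := fun v hv => by
    by_cases e : v = u
    · rw [e]
    · exact (hK.1 hv hu e).2
  by_cases hn : (zone G lam u).2.Nonempty
  · obtain ⟨y, hy⟩ := hn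
    refine h _ (hG.insert (a := y) fun v hv => ?_)
    rw [← hz v hv] at hy
    exact hy.1.symm
  · have no : ∀ v ∈ K, ∀ y, ¬ Out G lam v y := fun v hv y hy =>
      hn (hz v hv ▸ (zone_min List.prefix_rfl ⟨y, mem_past_leaf.2 hy⟩).2)
    refine SimpleGraph.CliqueFreeOn.mono _ (by omega : a + 1 ≤ a + d + 1) (T.free u)
      (fun v hv => ?_) hG
    by_cases e : v = u
    · exact congrArg π e
    · exact (C.adj v u (hG.1 hv hu e)).resolve_right fun l => l.elim (no v hv u) (no u hu v)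

theorem one (C : CS G lam π cl al k g) (T : Ty G π κ a A) (h : G.CliqueFree (a + 1)) {u v : V} :
    ¬ Out G lam u v := fun e => by
  classical
  obtain ⟨K, h1, h2⟩ := T.big u
  exact h _ (h1.insert (a := v) fun w hw => (C.mod u w v (h2 w hw).symm e).symm)

theorem two (C : CS G lam π cl al k g) (T : Ty G π κ a A) (h : G.CliqueFree (a + 2)) {u x y : V}
    (hx : Out G lam u x) (hy : Out G lam u y) : ¬ G.Adj x y := fun e => by
  classical
  obtain ⟨K, h1, h2⟩ := T.big u
  refine h _ ((h1.insert (a := y) fun w hw => (C.mod u w y (h2 w hw).symm hy).symm).insert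
    (a := x) fun w hw => ?_)
  rcases Finset.mem_insert.1 hw with rfl | hw
  exacts [e, (C.mod u w x (h2 w hw).symm hx).symm]

theorem atoms [Finite V] (C : CS G lam π cl al k g) (T : Ty G π κ a A) (t : Nd) :
    ((fun x => (π x, κ x)) '' {x | ∃ u, out G lam u x t}).ncard ≤ k * A := by
  have h1 : (π '' {x | ∃ u, out G lam u x t}).ncard ≤ k :=
    le_trans (G91.factor_le _ π (cl t) fun x ⟨u, hu⟩ x' ⟨u', hu'⟩ e =>
      (C.twin t u x u' x' hu hu' e).1) (C.targ t)
  refine le_trans (ncard_le_ncard (t := (π '' {x | ∃ u, out G lam u x t}) ×ˢ Iio A) ?_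
    ((toFinite _).prod (finite_Iio A))) ?_
  · rintro _ ⟨x, hx, rfl⟩
    exact ⟨⟨x, hx, rfl⟩, T.lt x⟩
  · rw [ncard_prod, ncard_Iio_nat]
    exact Nat.mul_le_mul_right A h1

theorem atoms' [Finite V] (C : CS G lam π cl al k g) (T : Ty G π κ a A)
    (h : G.CliqueFree (a + 2)) (t : Nd) :
    ((fun x => (π x, κ x)) '' {x | ∃ u, out G lam u x t}).ncard ≤ k := by
  have key : ∀ u x u' x', out G lam u x t → out G lam u' x' t → cl t x = cl t x' →
      ∀ y, π y = π x → G.Adj x y → G.Adj x' y := fun u x u' x' hu hu' e y hy l =>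
    ((C.twin t u x u' x' hu hu' e).2 y hy l).resolve_right fun l' =>
      two C T h ⟨t, hu⟩ ⟨t, l', hu.2.1, C.lf y x hy ▸ hu.2.2⟩ l
  refine le_trans (G91.factor_le _ _ (cl t) ?_) (C.targ t)
  rintro x ⟨u, hu⟩ x' ⟨u', hu'⟩ e
  have h1 := (C.twin t u x u' x' hu hu' e).1
  exact Prod.ext h1 (T.tw x x' h1 fun y hy =>
    ⟨key u x u' x' hu hu' e y hy, key u' x' u x hu' hu e.symm y (hy.trans h1)⟩)

end Inn

open Inn in
theorem innerSt : InnerSt := fun _ _ _ _ _ _ _ _ _ _ _ κ _ _ C T =>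
  ⟨cs C, ty C T, fun _ _ h e => ⟨e, zone_eq C h⟩, drop C T,
    fun h => ⟨κ, T.lt, fun _ _ _ e => e, fun u v e => T.ne u v
      ((C.adj u v e).resolve_right fun l => l.elim (one C T h) (one C T h)) e⟩,
    atoms C T, atoms' C T⟩

end Pool.Agent.MP_da1f04_co.S91
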