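import Pool.Agent.MP_da1f04_co.S91.Spec

/-! All the phases of one level. -/

set_option autoImplicit false

namespace Pool.Agent.MP_da1f04_co.S91

open Set Function I91

theorem level_sub {V Y : Type} [Finite V] (f : V → Y) (E : V → V → Nd → Prop) (S : Set V) (t : Nd) :
    (f '' {x | ∃ u, On E S u x t}).ncard ≤ (f '' {x | ∃ u, E u x t}).ncard :=
  ncard_le_ncard (image_mono fun _ ⟨u, e⟩ => ⟨u, e.1⟩) (toFinite _)

theorem level_on {V X Z : Type} [Finite V] {lam : V → Nd} {π : V → X} {z : V → Z} {b : Z → Nd}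
    {E : V → V → Nd → Prop} {k : ℕ} (h : LV lam π z b E k) (S : Set V) :
    LV lam π z b (On E S) k where
  lf := h.lf
  zn := h.zn
  born := h.born
  ev u x t e := h.ev u x t e.1
  outer u x t e := h.outer u x t e.1
  heads t := (level_sub π E S t).trans (h.heads t)
  one u x t u' x' t' s e e' := h.one u x t u' x' t' s e.1 e'.1

theorem level_ind (h1 : RenSt) (h2 : PhaseSt) (h3 : FinSt) {V X Z : Type} [Finite V]
    {lam : V → Nd} {π : V → X} {z : V → Z} {b : Z → Nd} {k ρ h A r L : ℕ} {ι κ : V → ℕ}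
    (hι : ∀ u, ι u < ρ) (hκ : ∀ u, κ u < A) (hικ : ∀ u v, π u = π v → κ u = κ v → ι u = ι v)
    (hr : 1 ≤ r) (hL : L = 2 * (2 * k * (k + 2) * (r + 1)) + 1) (j : ℕ) :
    ∀ (E : V → V → Nd → Prop) (S : Set V), LV lam π z b E k →
      (∀ u x t, E u x t → z u = z x → ι u ≠ ι x) →
      (∀ t, ((fun x => (π x, ι x)) '' {x | ∃ u, E u x t}).ncard ≤ h) → Sat π S →
      (∀ u x t, E u x t → u ∈ S ∧ x ∈ S) → Thin π z S (L ^ 2 * 2 ^ (r + 1) ^ j) →
      ∃ c : V → ℕ, (∀ u, c u < j * (ρ + 5 * (h * r)) + (2 * (L ^ 2 * 2 * k) + 1) * A) ∧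
        (∀ u v, π u = π v → κ u = κ v → c u = c v) ∧
        (∀ u v, π u = π v → κ u ≠ κ v → ι u ≠ ι v → c u ≠ c v) ∧
        ∀ u x t, E u x t → c u ≠ c x := by
  classical
  induction j with
  | zero =>
    intro E S lv _ _ _ hS th
    obtain ⟨φ, p1, p2⟩ := h3 V X Z lam π z b E k _ S lv hS th
    rw [pow_zero, pow_one] at p1
    refine ⟨fun u => φ (π u) * A + κ u, fun u => ?_, fun u v e e' => by simp only [e, e'],
      fun u v e e' _ => by simpa only [e, ne_eq, add_right_inj] using e', fun u x t e e' => ?_⟩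
    · have := hκ u
      have := Nat.mul_le_mul_right A (Nat.succ_le_of_lt (p1 (π u)))
      rw [Nat.succ_mul] at this
      dsimp only
      omega
    · refine p2 u x t e ?_
      have := congrArg (· / A) e'
      have a := Nat.zero_lt_of_lt (hκ u)
      simpa only [mul_comm _ A, Nat.mul_add_div a, Nat.div_eq_of_lt (hκ _), add_zero] using this
  | succ j ih =>
    intro E S lv e1 e2 sat hS th
    have L1 : 1 ≤ L := by omega
    have p1 : 1 ≤ 2 ^ (r + 1) ^ j := Nat.one_le_two_pow
    obtain ⟨S', -, sat', th', few⟩ := h2 V X Z lam π z b E k r (2 * L * 2 ^ (r + 1) ^ j) _ S lv sat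
      hS (by nlinarith) (by
        rw [mul_pow, ← pow_mul, ← pow_succ]
        refine Nat.mul_lt_mul_of_lt_of_le ?_ le_rfl (by positivity)
        exact lt_of_lt_of_le (Nat.pow_lt_pow_left (by omega) two_ne_zero)
          (Nat.pow_le_pow_right (by omega) (by omega))) th
    have sub := fun T t => (level_sub (fun x => (π x, ι x)) E T t).trans (e2 t)
    obtain ⟨c, c1, c2, c3⟩ := h1 V X Z lam π z b _ k ρ h _ ι (level_on lv S'ᶜ) hι
      (fun u x t e => e1 u x t e.1) (sub _) few
    obtain ⟨d, d1, d2, d3, d4⟩ := ih (On E S') S' (level_on lv S') (fun u x t e => e1 u x t e.1)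
      (sub _) sat' (fun u x t e => e.2) fun ζ => (th' ζ).trans (by
        rw [show 2 * k * (k + 2) * ((r + 1) * (2 * L * 2 ^ (r + 1) ^ j)) =
          2 * (2 * k * (k + 2) * (r + 1)) * L * 2 ^ (r + 1) ^ j by ring, sq]
        exact Nat.mul_le_mul_right _ (Nat.mul_le_mul_right _ (by omega)))
    have c0 : ∀ u, c u < ρ + 5 * (h * r) := fun u => (c1 u).trans_le (by
      rw [mul_left_comm]
      exact Nat.add_le_add_left (Nat.mul_le_mul_left _ (by omega)) _)
    have st : ∀ u v, π u = π v → (u ∈ S' ↔ v ∈ S') := fun u v e => ⟨sat' u v e, sat' v u e.symm⟩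
    refine ⟨fun u => if u ∈ S' then ρ + 5 * (h * r) + d u else c u, fun u => ?_,
      fun u v e e' => ?_, fun u v e e' e'' => ?_, fun u x t e => ?_⟩
    · have := c0 u
      have := d1 u
      rw [add_one_mul j]
      dsimp only
      split_ifs <;> omega
    · simp only [st u v e, d2 u v e e', (c2 u v e).2 (hικ u v e e')]
    · have := d3 u v e e' e''
      have := mt (c2 u v e).1 e''
      simp only [st u v e]
      split_ifs <;> omega
    · have := c0 u
      have := c0 x
      dsimp only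
      split_ifs with m m' m'
      · have := d4 u x t ⟨e, m, m'⟩
        omega
      · omega
      · omega
      · exact c3 u x t ⟨e, m, m'⟩

theorem level (h1 : RenSt) (h2 : PhaseSt) (h3 : FinSt) : LevelSt := by
  intro k
  refine ⟨2 * ((8 * (k * (k + 2)) + 1) ^ 2 * 2 * k) + 1, ?_⟩
  intro V X Z _ lam π z b E ρ h A s p r ι κ lv hι hκ hικ e1 e2 hr hp hV
  obtain ⟨c, c1, c2⟩ := level_ind h1 h2 h3 hι hκ hικ hr rfl p E univ lv e1 e2
    (fun _ _ _ _ => trivial) (fun _ _ _ _ => ⟨trivial, trivial⟩) fun ζ =>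
      ((ncard_image_le (toFinite _)).trans (ncard_le_card _)).trans (hV.trans
        ((Nat.pow_le_pow_right two_pos hp).trans (Nat.le_mul_of_pos_left _ (by positivity))))
  refine ⟨c, fun u => (c1 u).trans_le (Nat.add_le_add_left ?_ _), c2⟩
  rw [← mul_assoc _ (r ^ 2)]
  refine Nat.mul_le_mul_right _ ?_
  have a : 2 * (2 * k * (k + 2) * (r + 1)) + 1 ≤ (8 * (k * (k + 2)) + 1) * r := by
    have := Nat.mul_le_mul_left (k * (k + 2)) hr
    nlinarith
  have a2 := Nat.mul_le_mul_right (4 * k) (Nat.pow_le_pow_left a 2)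
  have a3 : 1 ≤ r ^ 2 := Nat.one_le_pow _ _ hr
  nlinarith

end Pool.Agent.MP_da1f04_co.S91
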