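import Pool.Agent.MP_da1f04_co.Hom

/-! Small members of the closure with large chromatic number and given clique number. -/

set_option autoImplicit false

namespace Pool.Agent.MP_da1f04_co.S91

open SimpleGraph Set Sum

variable {q : ℕ}

/-- At least `t` colours are needed. -/
def Hard {V : Type} (G : SimpleGraph V) (t : ℕ) : Prop := ∀ n, G.Colorable n → t ≤ n

theorem Hard.mono {V : Type} {G : SimpleGraph V} {t t' : ℕ} (h : Hard G t) (ht : t' ≤ t) :
    Hard G t' := fun n hn => ht.trans (h n hn)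

/-- A graph with a set of vertices that may be joined to new twins. -/
structure Pq (q : ℕ) where
  /-- vertices -/
  V : Type
  /-- the graph -/
  G : SimpleGraph V
  /-- the future neighbours -/
  N : Set V
  ok : ∀ (ρ : Type) [Subsingleton ρ], Cl Tiny 2 _ (cone ρ G N)
  cf : G.CliqueFree (q + 2)
  st : G.CliqueFreeOn N (q + 1)

theorem Pq.cl (X : Pq q) : Cl Tiny 2 _ X.G :=
  .iso _ _ _ _ (X.ok Empty) ⟨⟨Equiv.emptySum _ _, by
    rintro (x | x) (y | y)
    exacts [x.elim, x.elim, y.elim, Iff.rfl]⟩⟩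

instance (X : Pq q) : Finite X.V := X.cl.finite

/-- The same graph without marked vertices. -/
def Pq.forget (X : Pq q) : Pq q where
  V := X.V
  G := X.G
  N := ∅
  ok ρ _ := (tiny ((card_one ρ).trans one_le_two) ⊥).glue' X.cl ⟨⟨inl, inl_injective⟩, Iff.rfl⟩
    ⟨⟨inr, inr_injective⟩, Iff.rfl⟩ (by rintro (x | x) <;> simp)
    (by simp [Set.range_inl_inter_range_inr]) (by rintro (x | x) hx (y | y) hy <;> simp_all [att])
  cf := X.cf
  st K hK hc := by
    obtain ⟨x, hx⟩ := Finset.card_pos.1 (show 0 < K.card by rw [hc.2]; omega)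
    exact hK hx

/-- All vertices are marked. -/
def Pq.all {V : Type} (H : SimpleGraph V) (h : Cl Tiny 2 V H) (cf : H.CliqueFree (q + 1)) :
    Pq q where
  V := V
  G := H
  N := univ
  ok ρ _ := by
    have := h.finite
    rcases isEmpty_or_nonempty V with _ | ⟨⟨v⟩⟩
    · refine tiny ?_ _
      rw [Nat.card_sum]
      exact add_le_add (card_one ρ) (card_one V)
    refine .subst _ _ (range inr) (inr v) ⟨v, rfl⟩ ?_ (tiny ?_ _)
      (h.emb ⟨⟨inr, inr_injective⟩, Iff.rfl⟩ rfl)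
    · rintro (x | x) hx _ ⟨y, rfl⟩
      · simp [att]
      · exact (hx ⟨x, rfl⟩).elim
    · rw [Nat.card_coe_set_eq, compl_range_inr]
      exact (ncard_insert_le _ _).trans (Nat.succ_le_succ
        ((ncard_le_one (finite_range _)).2 (subsingleton_range _)))
  cf := cf.mono (Nat.le_succ _)
  st := cf.cliqueFreeOn

theorem att_clique {V W : Type} {G : SimpleGraph V} {H : SimpleGraph W} {D : Set V} {N : Set W}
    {K : Finset (V ⊕ W)} (h : (att G H D N).IsClique K) :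
    G.IsClique K.toLeft ∧ H.IsClique K.toRight ∧
      ∀ x ∈ K.toLeft, ∀ y ∈ K.toRight, x ∈ D ∧ y ∈ N :=
  ⟨fun _ hx _ hy hne => h (Finset.mem_toLeft.1 hx) (Finset.mem_toLeft.1 hy)
      fun e => hne (inl_injective e),
    fun _ hx _ hy hne => h (Finset.mem_toRight.1 hx) (Finset.mem_toRight.1 hy)
      fun e => hne (inr_injective e),
    fun _ hx _ hy => h (Finset.mem_toLeft.1 hx) (Finset.mem_toRight.1 hy) inl_ne_inr⟩

theorem attach (X K : Pq q) (D : Set X.V) (hD : D.Subsingleton) (hN : ∀ d ∈ D, d ∉ X.N) :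
    ∃ (Y : Pq q) (e : X.G ↪g Y.G) (e' : K.G →g Y.G), Y.N = e '' X.N ∪ e' '' K.N ∧
      (∀ d ∈ D, ∀ y ∈ K.N, Y.G.Adj (e d) (e' y)) ∧ (∀ x y, e x ≠ e' y) ∧
      Nat.card Y.V = Nat.card X.V + Nat.card K.V := by
  have hD' : Subsingleton D := hD.coe_sort
  refine ⟨⟨X.V ⊕ K.V, att X.G K.G D K.N, inl '' X.N ∪ inr '' K.N,
    fun ρ _ => ?_, ?_, ?_⟩, ⟨⟨inl, inl_injective⟩, Iff.rfl⟩, ⟨inr, id⟩, rfl,
    fun d hd y hy => ⟨hd, hy⟩, fun _ _ => inl_ne_inr, Nat.card_sum⟩
  · refine (X.ok ρ).glue' (two K.ok (ρ ⊕ D) ?_)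
      ⟨⟨Sum.map id inl, Sum.map_injective.2 ⟨Function.injective_id, inl_injective⟩⟩, ?_⟩
      ⟨⟨Sum.elim (Sum.map id (inl ∘ Subtype.val)) (inr ∘ inr), ?_⟩, ?_⟩ ?_ ?_ ?_
    · rw [Nat.card_sum]
      exact add_le_add (card_one ρ) (card_one D)
    · rintro (x | x) (y | y) <;> simp [att]
    · rintro ((x | x) | x) ((y | y) | y) h <;> simp_all [Subtype.val_inj]
    · rintro ((x | x) | x) ((y | y) | y) <;> simp [att, hN]
      rw [Subsingleton.elim x y]
      exact X.G.irrefl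
    · rintro (x | x | x) <;> simp
    · refine (ncard_le_ncard (t := range inl ∪ range (inr ∘ inl ∘ Subtype.val : D → _)) ?_).trans
        ((ncard_union_le _ _).trans (add_le_add (b := 1) (d := 1) ?_ ?_))
      · rintro (x | x | x) <;> simp
      · exact (ncard_le_one (finite_range _)).2 (subsingleton_range _)
      · exact (ncard_le_one (finite_range _)).2 (subsingleton_range _)
    · rintro (x | x | x) hx y hy h
      · exact hx ⟨inl (inl x), rfl⟩
      · rcases y with y | y | y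
        exacts [hy ⟨inl y, rfl⟩, hy ⟨inr y, rfl⟩, hx ⟨inl (inr ⟨x, h.1⟩), rfl⟩]
      · exact hx ⟨inr x, rfl⟩
  · intro T hT
    obtain ⟨h1, h2, h3⟩ := att_clique hT.1
    have hc := T.card_toLeft_add_card_toRight
    rw [hT.2] at hc
    rcases T.toRight.eq_empty_or_nonempty with e | ⟨y, hy⟩
    · rw [e, Finset.card_empty] at hc
      exact X.cf _ ⟨h1, hc⟩
    rcases T.toLeft.eq_empty_or_nonempty with e | ⟨x, hx⟩
    · rw [e, Finset.card_empty, zero_add] at hc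
      exact K.cf _ ⟨h2, hc⟩
    have h4 : T.toLeft.card ≤ 1 := Finset.card_le_one.2 fun a ha b hb =>
      hD (h3 a ha y hy).1 (h3 b hb y hy).1
    have h5 := Finset.card_pos.2 ⟨x, hx⟩
    exact K.st (fun z hz => (h3 x hx z hz).2) ⟨h2, by omega⟩
  · intro T hs hT
    obtain ⟨h1, h2, h3⟩ := att_clique hT.1
    have hc := T.card_toLeft_add_card_toRight
    rw [hT.2] at hc
    have g1 : ∀ x ∈ T.toLeft, x ∈ X.N := fun x hx => by
      simpa using hs (Finset.mem_toLeft.1 hx)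
    have g2 : ∀ x ∈ T.toRight, x ∈ K.N := fun x hx => by
      simpa using hs (Finset.mem_toRight.1 hx)
    rcases T.toRight.eq_empty_or_nonempty with e | ⟨y, hy⟩
    · rw [e, Finset.card_empty] at hc
      exact X.st g1 ⟨h1, hc⟩
    rcases T.toLeft.eq_empty_or_nonempty with e | ⟨x, hx⟩
    · rw [e, Finset.card_empty, zero_add] at hc
      exact K.st g2 ⟨h2, hc⟩
    exact hN x (h3 x hx y hy).1 (g1 x hx)

theorem attachAll (X K : Pq q) (s : Finset X.V) :
    ∃ (Y : Pq q) (e : X.G ↪g Y.G), (∀ x, e x ∉ Y.N) ∧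
      Nat.card Y.V = Nat.card X.V + s.card * Nat.card K.V ∧
      ∀ w ∈ s, ∃ e' : K.G →g Y.G, ∀ y ∈ K.N, e' y ∈ Y.N ∧ Y.G.Adj (e w) (e' y) := by
  classical
  induction s using Finset.induction_on with
  | empty => exact ⟨X.forget, .refl, fun _ h => h.elim, by simp [Pq.forget], by simp⟩
  | insert w s hw ih =>
    obtain ⟨Y, e, h1, h2, h3⟩ := ih
    obtain ⟨Z, f, f', g1, g2, g3, g4⟩ := attach Y K {e w} subsingleton_singleton
      (by rintro _ rfl; exact h1 w)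
    refine ⟨Z, f.comp e, fun x hx => ?_, ?_, Finset.forall_mem_insert _ _ _ |>.2
      ⟨⟨f', fun y hy => ⟨g1 ▸ .inr ⟨y, hy, rfl⟩, g2 _ rfl y hy⟩⟩, fun x hx => ?_⟩⟩
    · rw [g1] at hx
      rcases hx with ⟨y, hy, e1⟩ | ⟨y, -, e1⟩
      · exact h1 x ((f.injective e1 : y = e x) ▸ hy)
      · exact g3 _ _ e1.symm
    · rw [g4, h2, Finset.card_insert_of_notMem hw]
      ring
    · obtain ⟨e', a⟩ := h3 x hx
      exact ⟨f.toHom.comp e', fun y hy =>
        ⟨g1 ▸ .inl ⟨_, (a y hy).1, rfl⟩, f.map_adj_iff.2 (a y hy).2⟩⟩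

/-- Colourings in which the marked vertices avoid `j` colours need `t` colours. -/
def Wn (X : Pq q) (j t : ℕ) : Prop :=
  ∀ (n : ℕ) (φ : X.G.Coloring (Fin n)) (S : Finset (Fin n)), S.card = j →
    (∀ v ∈ X.N, φ v ∉ S) → t ≤ n

theorem Wn.hard {X : Pq q} {t : ℕ} (h : Wn X 0 t) : Hard X.G t :=
  fun n ⟨φ⟩ => h n φ ∅ rfl fun _ _ => Finset.notMem_empty _

theorem Hard.le {V : Type} {G : SimpleGraph V} {t n : ℕ} (h : Hard G t)
    (φ : G.Coloring (Fin n)) (S : Finset (Fin n)) (hS : ∀ v, φ v ∈ S) : t ≤ S.card := by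
  have := h _ (Coloring.mk (G := G) (fun v => (⟨φ v, hS v⟩ : S))
    fun ha e => φ.valid ha (congrArg Subtype.val e)).colorable
  simpa using this

theorem wn_all {V : Type} {H : SimpleGraph V} (h : Cl Tiny 2 V H) (cf : H.CliqueFree (q + 1))
    {r : ℕ} (hr : Hard H r) (j : ℕ) : Wn (Pq.all H h cf) j (j + r) := by
  intro n φ S hS hv
  have h1 := hr.le φ Sᶜ fun v => Finset.mem_compl.2 (hv v trivial)
  have h2 := Finset.card_add_card_compl S
  rw [Fintype.card_fin] at h2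
  omega

theorem step (A K : Pq q) {j t : ℕ} (hA : Hard A.G (j + 1)) (hK : Wn K (j + 1) t) :
    ∃ Y : Pq q, Wn Y j t ∧ Nat.card Y.V + 1 ≤ (Nat.card A.V + 1) * (Nat.card K.V + 1) := by
  classical
  have := Fintype.ofFinite A.V
  obtain ⟨Y, e, -, h2, h3⟩ := attachAll A K Finset.univ
  refine ⟨Y, fun n φ S hS hv => ?_, ?_⟩
  · obtain ⟨w, hw⟩ : ∃ w, φ (e w) ∉ S := by
      by_contra hc
      have := hA.le (φ.comp e.toHom) S fun v => by_contra fun h => hc ⟨v, h⟩
      omega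
    obtain ⟨e', a⟩ := h3 w (Finset.mem_univ w)
    refine hK n (φ.comp e') (insert (φ (e w)) S) (by rw [Finset.card_insert_of_notMem hw, hS])
      fun v h1 h => ?_
    rcases Finset.mem_insert.1 h with h | h
    · exact φ.valid (a v h1).2 h.symm
    · exact hv _ (a v h1).1 h
  · rw [h2, Finset.card_univ, ← Nat.card_eq_fintype_card]
    nlinarith [Nat.zero_le (Nat.card K.V)]

theorem steps (A : Pq q) {j t : ℕ} (r : ℕ) (hA : Hard A.G (j + r)) (K : Pq q)
    (hK : Wn K (j + r) t) :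
    ∃ Y : Pq q, Wn Y j t ∧ Nat.card Y.V + 1 ≤ (Nat.card A.V + 1) ^ r * (Nat.card K.V + 1) := by
  induction r generalizing K with
  | zero => exact ⟨K, hK, by simp⟩
  | succ r ih =>
    obtain ⟨Y, h1, h2⟩ := step A K (j := j + r) hA hK
    obtain ⟨Z, h3, h4⟩ := ih (hA.mono (by omega)) Y h1
    refine ⟨Z, h3, h4.trans ?_⟩
    rw [pow_succ, mul_assoc]
    exact Nat.mul_le_mul_left _ h2

theorem tower {V : Type} {H : SimpleGraph V} (h : Cl Tiny 2 V H) (cf : H.CliqueFree (q + 1))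
    {r b : ℕ} (hr : Hard H r) (hb : Nat.card V + 1 ≤ 2 ^ b) (i : ℕ) :
    ∃ d, d + b = b * (r + 1) ^ i ∧ ∀ (K : Pq q) (t : ℕ), Wn K (i * r) t →
      ∃ Y : Pq q, Wn Y 0 t ∧ Nat.card Y.V + 1 ≤ 2 ^ d * (Nat.card K.V + 1) := by
  induction i with
  | zero => exact ⟨0, by simp, fun K t hK => ⟨K, by simpa using hK, by simp⟩⟩
  | succ i ih =>
    obtain ⟨d, hd, ih⟩ := ih
    obtain ⟨A, a1, a2⟩ := ih _ _ (wn_all h cf hr (i * r))
    have a3 : Nat.card A.V + 1 ≤ 2 ^ (d + b) := by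
      rw [pow_add]
      exact a2.trans (Nat.mul_le_mul_left _ hb)
    refine ⟨d + (d + b) * r, ?_, fun K t hK => ?_⟩
    · rw [pow_succ, ← mul_assoc, ← hd]
      ring
    · obtain ⟨Y, y1, y2⟩ := steps A r a1.hard K (by rwa [Nat.succ_mul] at hK)
      obtain ⟨Z, z1, z2⟩ := ih Y t y1
      refine ⟨Z, z1, z2.trans ?_⟩
      rw [pow_add, mul_assoc, pow_mul]
      exact Nat.mul_le_mul_left _ (y2.trans
        (Nat.mul_le_mul_right _ (Nat.pow_le_pow_left a3 _)))

theorem up {V : Type} {H : SimpleGraph V} (h : Cl Tiny 2 V H) (cf : H.CliqueFree (q + 1))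
    {r b : ℕ} (hr : Hard H r) (hb : Nat.card V + 1 ≤ 2 ^ b) (i : ℕ) :
    ∃ (W : Type) (G : SimpleGraph W), Cl Tiny 2 W G ∧ G.CliqueFree (q + 2) ∧
      Nat.card W + 1 ≤ 2 ^ (b * (r + 1) ^ i) ∧ Hard G ((i + 1) * r) := by
  obtain ⟨d, hd, ih⟩ := tower h cf hr hb i
  obtain ⟨A, a1, a2⟩ := ih _ _ (wn_all h cf hr (i * r))
  refine ⟨A.V, A.G, A.cl, A.cf, ?_, by simpa [Nat.succ_mul] using a1.hard⟩
  rw [← hd, pow_add]
  exact a2.trans (Nat.mul_le_mul_left _ hb)

theorem hard_unit : Hard (⊥ : SimpleGraph Unit) 1 := fun _ ⟨φ⟩ => (φ ()).pos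

/-- The lower bound. -/
theorem low (p : ℕ) : ∃ c : ℕ, 1 ≤ c ∧ ∀ s : ℕ, ∃ (W : Type) (G : SimpleGraph W) (r : ℕ),
    Cl Tiny 2 W G ∧ G.CliqueFree (p + 3) ∧ Nat.card W + 1 ≤ 2 ^ 2 ^ s ∧ Hard G r ∧
      (s + 1) ^ (p + 1) ≤ c * r * (Nat.log 2 (s + 1) + 1) ^ p := by
  induction p with
  | zero =>
    refine ⟨1, le_rfl, fun s => ?_⟩
    obtain ⟨W, G, h1, h2, h3, h4⟩ := up (q := 1) (b := 1) (tiny (by simp) (⊥ : SimpleGraph Unit))
      (cliqueFree_bot le_rfl) hard_unit (by simp) s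
    exact ⟨W, G, _, h1, h2, by simpa using h3, h4, by simp⟩
  | succ p ih =>
    obtain ⟨c, hc, ih⟩ := ih
    refine ⟨2 * (p + 1) * 2 ^ (p + 1) * c, Nat.mul_pos (by positivity) hc, fun s => ?_⟩
    obtain ⟨V, H, r₀, h1, h2, h3, h4, h5⟩ := ih (s / 2)
    set L := Nat.log 2 (s + 1) + 1 with hL
    set r := min r₀ ((s + 1) ^ (p + 1)) with hr
    set E := L * (p + 1) with hE
    have hL1 : 1 ≤ L := by omega
    have hE1 : 0 < E := Nat.mul_pos hL1 (Nat.succ_pos _)
    obtain ⟨W, G, g1, g2, g3, g4⟩ := up (q := p + 2) h1 h2 (h4.mono (min_le_left _ _) : Hard H r)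
      h3 ((s - s / 2) / E)
    set i := (s - s / 2) / E with hi
    have e1 : r + 1 ≤ 2 ^ E := by
      have : (s + 1) ^ (p + 1) < (2 ^ L) ^ (p + 1) :=
        Nat.pow_lt_pow_left (Nat.lt_pow_succ_log_self one_lt_two _) (Nat.succ_ne_zero _)
      rw [hE, pow_mul]
      exact Nat.succ_le_of_lt ((min_le_right _ _).trans_lt this)
    have e2 : E * i ≤ s - s / 2 := Nat.mul_div_le _ _
    have e3 : s - s / 2 < E * (i + 1) := Nat.lt_mul_div_succ _ hE1
    have e4 : (s / 2 + 1) ^ (p + 1) ≤ c * r * L ^ p := by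
      rcases min_choice r₀ ((s + 1) ^ (p + 1)) with e | e
      · rw [hr, e]
        refine h5.trans (Nat.mul_le_mul_left _ (Nat.pow_le_pow_left ?_ _))
        exact Nat.succ_le_succ (Nat.log_mono_right (by omega))
      · rw [hr, e]
        exact (Nat.pow_le_pow_left (by omega) _).trans ((Nat.le_mul_of_pos_left _ hc).trans
          (Nat.le_mul_of_pos_right _ (by positivity)))
    refine ⟨W, G, _, g1, g2, g3.trans (Nat.pow_le_pow_right two_pos ?_), g4, ?_⟩
    · refine (Nat.mul_le_mul_left _ (Nat.pow_le_pow_left e1 i)).trans ?_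
      rw [← pow_mul, ← pow_add]
      exact Nat.pow_le_pow_right two_pos (by omega)
    · have f1 : (s + 1) ^ (p + 1) ≤ 2 ^ (p + 1) * (c * r * L ^ p) := by
        refine le_trans ?_ (Nat.mul_le_mul_left _ e4)
        rw [← mul_pow]
        exact Nat.pow_le_pow_left (by omega) _
      have f2 : s + 1 ≤ 2 * (E * (i + 1)) := by omega
      rw [pow_succ]
      refine (Nat.mul_le_mul f1 f2).trans (le_of_eq ?_)
      rw [hE]
      ring

end Pool.Agent.MP_da1f04_co.S91
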