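import Pool.Agent.MP_da1f04_co.S91.Spec

/-! Marking from the top with a cap. -/

set_option autoImplicit false

namespace Pool.Agent.MP_da1f04_co.S91

open Set Function I91

namespace Mark

variable {X : Type} (lf : X → Nd) (tg : Nd → Set X)

theorem exists_mk (Want : Nd → Prop) (W : ℕ) : ∃ Mk : Nd → Prop,
    ∀ t, Mk t ↔ Want t ∧ (Mkd lf tg Mk t (t ++ [false])).ncard ≤ W := by
  have lt : ∀ {t' t : Nd}, t' ++ [false] <+: t → t'.length < t.length := fun h => by
    simpa [Nat.succ_le_iff] using h.length_le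
  let F : ∀ t : Nd, (∀ t' : Nd, t'.length < t.length → Prop) → Prop := fun t ih => Want t ∧
    {a | t ++ [false] <+: lf a ∧ ∃ t', ∃ h : t' ++ [false] <+: t, ih t' (lt h) ∧ a ∈ tg t'}.ncard ≤ W
  refine ⟨(measure List.length).wf.fix F, fun t => ?_⟩
  rw [WellFounded.fix_eq]
  refine and_congr_right fun _ => iff_of_eq ?_
  congr 2
  ext a
  exact and_congr_right fun _ => exists_congr fun t' =>
    ⟨fun ⟨h, u, v⟩ => ⟨u, h, v⟩, fun ⟨u, h, v⟩ => ⟨h, u, v⟩⟩

variable {lf tg} {Mk : Nd → Prop}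

theorem nil (s : Nd) : Mkd lf tg Mk [] s = ∅ := by
  ext a
  simp [Mkd]

theorem step {t s : Nd} {b : Bool} {a : X} (h : a ∈ Mkd lf tg Mk (t ++ [b]) s) :
    a ∈ Mkd lf tg Mk t s ∨ (b = false ∧ Mk t ∧ a ∈ tg t) := by
  obtain ⟨u, t', v, w, x⟩ := h
  rcases pre_app_cases w with e | e
  · obtain ⟨rfl, e'⟩ := List.append_inj' e rfl
    exact Or.inr ⟨by simpa using e'.symm, v, x⟩
  · exact Or.inl ⟨u, t', v, e, x⟩

theorem fin (hf : ∀ t, (tg t).Finite) (p s : Nd) : (Mkd lf tg Mk p s).Finite := by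
  induction p using List.reverseRecOn with
  | nil => simp [nil]
  | append_singleton t b ih =>
    exact (ih.union (hf t)).subset fun a h => (step h).imp_right fun u => u.2.2

end Mark

theorem mark : MarkSt := by
  intro X lf tg Want k W hf
  obtain ⟨Mk, hM⟩ := Mark.exists_mk lf tg Want W
  have fin := fun p s => Mark.fin (lf := lf) (Mk := Mk) (fun t => (hf t).1) p s
  refine ⟨Mk, fun t h => ((hM t).1 h).1, fun t h h' => not_le.1 fun u => h' ((hM t).2 ⟨h, u⟩),
    fun s => ⟨fin s s, ?_⟩⟩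
  induction s using List.reverseRecOn with
  | nil => simp [Mark.nil]
  | append_singleton t b ih =>
    by_cases c : b = false ∧ Mk t
    · obtain ⟨rfl, c⟩ := c
      refine (ncard_le_ncard (fun a h => (Mark.step h).imp_right fun u => u.2.2)
        ((fin _ _).union (hf t).1)).trans ((ncard_union_le _ _).trans ?_)
      exact Nat.add_le_add ((hM t).1 c).2 (hf t).2
    · refine (ncard_le_ncard (fun a h => ?_) (fin t t)).trans ih
      rcases Mark.step h with u | u
      · exact ⟨(pre_app _ _).trans u.1, u.2⟩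
      · exact (c ⟨u.1, u.2.1⟩).elim

end Pool.Agent.MP_da1f04_co.S91
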