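import Pool.Agent.MP_da1f04_co.S91.Spec
import Pool.Agent.MP_da1f04_co.R91.Basic
import Pool.Agent.MP_da1f04_co.I91.Xb

/-! One phase. -/

set_option autoImplicit false

namespace Pool.Agent.MP_da1f04_co.S91

open Set Function I91

namespace Phase

theorem pack {α β : Type} {T : Set α} (hT : T.Finite) (U : α → Set β) (y : ℕ) :
    ∀ Ω : Set β, Ω.Finite → (∀ t ∈ T, U t ⊆ Ω) → (∀ t ∈ T, y ≤ (U t).ncard) →
      (∀ t ∈ T, ∀ t' ∈ T, t ≠ t' → ∀ a ∈ U t, a ∉ U t') → T.ncard * y ≤ Ω.ncard := by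
  induction T, hT using Set.Finite.induction_on with
  | empty => intro Ω _ _ _ _; simp
  | @insert t T ht hT ih =>
    intro Ω hΩ h1 h2 h3
    have a := ih (Ω \ U t) hΩ.sdiff
      (fun t' ht' a ha => ⟨h1 t' (Or.inr ht') ha, h3 t' (Or.inr ht') t (Or.inl rfl)
        (fun e => ht (e ▸ ht')) a ha⟩)
      (fun t' ht' => h2 t' (Or.inr ht')) fun t' ht' t'' ht'' => h3 t' (Or.inr ht') t'' (Or.inr ht'')
    have a2 := ncard_sdiff_add_ncard_of_subset (h1 t (Or.inl rfl)) hΩ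
    have a3 := h2 t (Or.inl rfl)
    rw [ncard_insert_of_notMem ht hT, Nat.succ_mul]
    omega

variable {V X Z : Type} {lam : V → Nd} {π : V → X} {z : V → Z} {b : Z → Nd}
  {E : V → V → Nd → Prop} {k r s₀ W α : ℕ} {S : Set V} {lf : X → Nd}

variable (lam π z S s₀) in
/-- The level does not drop. -/
def nD (ζ : Z) (t : Nd) : Prop :=
  Nat.log s₀ (mu lam π {u | u ∈ S ∧ z u = ζ} t) ≤
    Nat.log s₀ (mu lam π {u | u ∈ S ∧ z u = ζ} (t ++ [true]))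

variable (π z E) in
/-- The units of the outer heads. -/
def tg (t : Nd) : Set X := π '' {x | ∃ u, E u x t ∧ z u ≠ z x}

variable (lam π z E S s₀) in
/-- The times that want to mark. -/
def Want (t : Nd) : Prop := ∃ u x, E u x t ∧ (nD lam π z s₀ S (z u) t ∨
  ∃ u' x' m, E u' x' m ∧ z u' = z u ∧ z x' = z u ∧ nD lam π z s₀ S (z u) m ∧
    m ++ [false] <+: t ∧ t ++ [true] <+: lam x')

variable (lam π z E S s₀) in
/-- Turns with an event and without a drop. -/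
def T1 (ζ : Z) (p : Nd) : Set Nd :=
  {t | t ++ [false] <+: p ∧ (∃ u x, E u x t ∧ z u = ζ) ∧ nD lam π z s₀ S ζ t}

theorem fin0 (p : Nd) (d : Bool) {T : Set Nd} (h : ∀ t ∈ T, t ++ [d] <+: p) : T.Finite :=
  (R91.finite_pre p).subset fun t ht => (pre_app _ _).trans (h t ht)

theorem tg_le [Finite V] (L : LV lam π z b E k) (t : Nd) :
    (tg π z E t).Finite ∧ (tg π z E t).ncard ≤ k :=
  ⟨(toFinite _).image _, le_trans
    (ncard_le_ncard (image_mono fun _ hx => hx.imp fun _ h => h.1) (toFinite _)) (L.heads t)⟩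

theorem want_le [Finite V] (L : LV lam π z b E k) (hl : ∀ u, lf (π u) = lam u)
    (hα : ∀ ζ p, (T1 lam π z E s₀ S ζ p).ncard ≤ α) {u x : V} {p : Nd} (e : E u x p) :
    {t | Want lam π z E s₀ S t ∧ b (z u) <+: t ∧ t ++ [false] <+: p}.ncard ≤ (k + 1) * α := by
  let U : Nd → Set Nd := fun m =>
    {t | t ++ [false] <+: p ∧ ∃ a ∈ π '' {x | ∃ u, E u x m}, t ++ [true] <+: lf a}
  have hU : ∀ m, (U m).Finite ∧ (U m).ncard ≤ k := fun m => by
    refine ⟨fin0 p false fun _ h => h.1, le_trans ?_ (L.heads m)⟩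
    have : Nonempty X := ⟨π u⟩
    choose! g g1 g2 using fun t (h : t ∈ U m) => h.2
    exact ncard_le_ncard_of_injOn g g1 (fun t ht t' ht' e =>
      meet_unique ht.1 (g2 t ht) ht'.1 (e ▸ g2 t' ht')) (toFinite _)
  have f1 : (T1 lam π z E s₀ S (z u) p).Finite := fin0 p false fun _ h => h.1
  have f2 : {t | ∃ m ∈ T1 lam π z E s₀ S (z u) p, t ∈ U m}.Finite :=
    fin0 p false fun _ ⟨_, _, h⟩ => h.1
  have h2 := (Xb.cover f2 f1 U hU fun _ h => h).trans (Nat.mul_le_mul_left k (hα _ _))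
  refine (ncard_le_ncard ?_ (f1.union f2)).trans
    ((ncard_union_le _ _).trans ((add_le_add (hα _ _) h2).trans (le_of_eq (by ring))))
  rintro t ⟨⟨u', x', e', hw⟩, h3, h4⟩
  have ez : z u' = z u := L.one u' x' t u x p t e' e (L.ev _ _ _ e').2.2 List.prefix_rfl h3
    ((pre_app _ _).trans h4)
  rw [ez] at hw
  rcases hw with hw | ⟨u₂, x₂, m, a1, a2, -, a4, a5, a6⟩
  · exact Or.inl ⟨h4, ⟨u', x', e', ez⟩, hw⟩
  · exact Or.inr ⟨m, ⟨a5.trans ((pre_app _ _).trans h4), ⟨u₂, x₂, a1, a2⟩, a4⟩, h4, π x₂,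
      ⟨x₂, ⟨u₂, a1⟩, rfl⟩, (hl x₂).symm ▸ a6⟩

variable (π z b E) in
/-- The marks that are added during the life of a zone. -/
def Add (Mk : Nd → Prop) (ζ : Z) (p : Nd) : Set X :=
  {a | ∃ t, Mk t ∧ b ζ <+: t ∧ t ++ [false] <+: p ∧ a ∈ tg π z E t}

theorem add_le [Finite V] (L : LV lam π z b E k) (hl : ∀ u, lf (π u) = lam u)
    (hα : ∀ ζ p, (T1 lam π z E s₀ S ζ p).ncard ≤ α) {Mk : Nd → Prop}
    (hM : ∀ t, Mk t → Want lam π z E s₀ S t) {u x : V} {p : Nd} (e : E u x p) :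
    (Add π z b E Mk (z u) p).Finite ∧ (Add π z b E Mk (z u) p).ncard ≤ k * ((k + 1) * α) := by
  have f : (Add π z b E Mk (z u) p).Finite :=
    (finite_range π).subset fun _ ⟨_, _, _, _, v, _, h⟩ => ⟨v, h⟩
  refine ⟨f, le_trans (Xb.cover f (fin0 p false fun _ h => h.2.2) (tg π z E) (tg_le L) ?_)
      (Nat.mul_le_mul_left k (want_le (s₀ := s₀) (S := S) L hl hα e))⟩
  exact fun a ⟨t, h1, h2, h3, h4⟩ => ⟨t, ⟨hM t h1, h2, h3⟩, h4⟩

theorem few [Finite V] (L : LV lam π z b E k) (hl : ∀ u, lf (π u) = lam u)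
    (hα : ∀ ζ p, (T1 lam π z E s₀ S ζ p).ncard ≤ α) {Mk : Nd → Prop}
    (hM : ∀ t, Mk t → Want lam π z E s₀ S t)
    (hN : ∀ t, Want lam π z E s₀ S t → ¬ Mk t →
      2 * (k * ((k + 1) * α)) + k < (Mkd lf (tg π z E) Mk t (t ++ [false])).ncard)
    (hC : ∀ s, (Mkd lf (tg π z E) Mk s s).Finite ∧
      (Mkd lf (tg π z E) Mk s s).ncard ≤ 2 * (k * ((k + 1) * α)) + k + k) {R : Set V}
    (hR : ∀ x ∈ R, ∀ t, Mk t → π x ∉ tg π z E t) (ζ : Z) (p : Nd) :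
    {t | ((Df z (On E R) ζ t ∨ Bad lam z (On E R) ζ t) ∧ t ++ [true] <+: p) ∧
      nD lam π z s₀ S ζ t}.ncard ≤ 3 := by
  set T := {t | ((Df z (On E R) ζ t ∨ Bad lam z (On E R) ζ t) ∧ t ++ [true] <+: p) ∧
      nD lam π z s₀ S ζ t} with hT
  have fT : T.Finite := fin0 p true fun _ h => h.1.2
  have ev : ∀ t ∈ T, ∃ u x, E u x t ∧ z u = ζ := by
    rintro t ⟨⟨⟨u, x, e, e1, -⟩ | ⟨u, x, e, e1, -⟩, -⟩, -⟩ <;> exact ⟨u, x, e.1, e1⟩
  have nm : ∀ t, Df z (On E R) ζ t → ¬ Mk t := fun t ⟨u, x, e, e1, e2⟩ h =>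
    hR x e.2.2 t h ⟨x, ⟨u, e.1, fun e' => e2 (e'.symm.trans e1)⟩, rfl⟩
  have fU : ∀ t, (Mkd lf (tg π z E) Mk t (t ++ [false])).Finite := fun t =>
    (hC t).1.subset fun _ h => ⟨(pre_app _ _).trans h.1, h.2⟩
  rcases T.eq_empty_or_nonempty with e | e
  · simp [e]
  obtain ⟨t₀, h₀, hm⟩ := exists_max_image T List.length fT e
  obtain ⟨u₀, x₀, e₀, rfl⟩ := ev t₀ h₀
  obtain ⟨fA, hA⟩ := add_le L hl hα hM e₀
  have key := pack fT (fun t => Mkd lf (tg π z E) Mk t (t ++ [false]))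
    (k * ((k + 1) * α) + k + 1) _ ((hC (b (z u₀))).1.union fA) (fun t ht a ha => ?_)
    (fun t ht => ?_) fun t ht t' ht' hne a ha ha' => ?_
  · have h1 := (ncard_union_le _ _).trans (add_le_add (hC (b (z u₀))).2 hA)
    by_contra hn
    have h2 := Nat.mul_le_mul_right (k * ((k + 1) * α) + k + 1) (show 4 ≤ T.ncard by omega)
    omega
  · obtain ⟨u, x, e, e1⟩ := ev t ht
    have bt : b (z u₀) <+: t := e1 ▸ (L.ev u x t e).2.2
    obtain ⟨a1, t', a2, a3, a4⟩ := ha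
    rcases pre_or_app bt a3 with c | c
    · exact Or.inr ⟨t', a2, c, a3.trans (pre_of_len ((pre_app _ _).trans ht.1.2)
        ((pre_app _ _).trans h₀.1.2) (hm t ht)), a4⟩
    · exact Or.inl ⟨bt.trans ((pre_app _ _).trans a1), t', a2, c, a4⟩
  · obtain ⟨⟨hd | ⟨u, x, e, e1, e2, t', hd, a1, a2⟩, -⟩, hn⟩ := ht
    · have hk := nm t hd
      obtain ⟨u, x, e, e1, -⟩ := hd
      have := hN t ⟨u, x, e.1, Or.inl (e1 ▸ hn)⟩ hk
      omega
    · have hk := nm t' hd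
      obtain ⟨u', x', e', e3, -⟩ := hd
      have h1 := hN t' ⟨u', x', e'.1, Or.inr ⟨u, x, t, e.1, e1.trans e3.symm, e2.trans e3.symm,
        e3 ▸ hn, a1, a2⟩⟩ hk
      obtain ⟨fB, hB⟩ := add_le L hl hα hM e'.1
      have h2 : Mkd lf (tg π z E) Mk t' (t' ++ [false]) ⊆
          Mkd lf (tg π z E) Mk t (t ++ [false]) ∪ Add π z b E Mk (z u') t' := by
        rintro a ⟨b1, t'', b2, b3, b4⟩
        rcases pre_or_app ((pre_app _ _).trans a1) b3 with c | c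
        · refine Or.inr ⟨t'', b2, List.IsPrefix.trans ?_ c, b3, b4⟩
          rw [e3, ← e1]
          exact (L.ev u x t e.1).2.2
        · exact Or.inl ⟨a1.trans ((pre_app _ _).trans b1), t'', b2, c, b4⟩
      have h3 := (ncard_le_ncard h2 ((fU t).union fB)).trans (ncard_union_le _ _)
      omega
  · rcases pre_or_app ((pre_app _ _).trans ht.1.2) ht'.1.2 with c | c
    · rcases pre_or_app ((pre_app _ _).trans ht'.1.2) ht.1.2 with c' | c'
      · exact hne (pre_antisymm c c')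
      · exact not_both (c'.trans ((pre_app _ _).trans ha'.1)) ha.1
    · exact not_both (c.trans ((pre_app _ _).trans ha.1)) ha'.1

end Phase

open Phase in
theorem phase (h1 : TurnSt) (h2 : MarkSt) : PhaseSt := by
  intro V X Z _ lam π z b E k r s₀ W S L hS hE hs hW hT
  obtain ⟨lf, hl⟩ : ∃ lf : X → Nd, ∀ u, lf (π u) = lam u := by
    classical
    exact ⟨fun a => if h : ∃ u, π u = a then lam h.choose else [], fun u => by
      have h : ∃ v, π v = π u := ⟨u, rfl⟩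
      simp only [dif_pos h]
      exact L.lf _ _ h.choose_spec⟩
  have tn := fun ζ => h1 V X lam π {u | u ∈ S ∧ z u = ζ} r s₀ L.lf hs ((hT ζ).trans_lt hW)
  have hα : ∀ ζ p, (T1 lam π z E s₀ S ζ p).ncard ≤ (r + 1) * s₀ := fun ζ p => by
    refine le_trans (ncard_le_ncard ?_ (fin0 p false fun _ h => h.1)) (tn ζ p).2
    rintro t ⟨a1, ⟨u, x, e, e1⟩, a2⟩
    exact ⟨a1, (ncard_pos (toFinite _)).2 ⟨π u, u, ⟨⟨(hE u x t e).1, e1⟩, (L.ev u x t e).1⟩, rfl⟩,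
      a2⟩
  obtain ⟨Mk, hM, hN, hC⟩ := h2 X lf (tg π z E) (Want lam π z E s₀ S) k
    (2 * (k * ((k + 1) * ((r + 1) * s₀))) + k) (tg_le L)
  refine ⟨{x | ∃ t, Mk t ∧ π x ∈ tg π z E t}, ?_, fun u v e ⟨t, a1, a2⟩ => ⟨t, a1, e ▸ a2⟩,
    fun ζ => ?_, fun ζ p => ?_⟩
  · rintro x ⟨t, -, x', ⟨u, e, -⟩, e'⟩
    exact hS x' x e' (hE u x' t e).2
  · refine (ncard_le_ncard ?_ (hC (b ζ)).1).trans ((hC (b ζ)).2.trans ?_)
    · rintro _ ⟨x, ⟨⟨t, a1, x', ⟨u, e, a2⟩, e'⟩, rfl⟩, rfl⟩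
      refine ⟨(hl x).symm ▸ L.born x, t, a1, ?_, x', ⟨u, e, a2⟩, e'⟩
      rw [← L.zn x' x e']
      exact L.outer u x' t e a2
    · have : 1 ≤ (r + 1) * s₀ := Nat.mul_pos (Nat.succ_pos _) (by omega)
      nlinarith [Nat.mul_le_mul_left (2 * k) this]
  · have h3 := few L hl hα hM hN hC (R := {x | ∃ t, Mk t ∧ π x ∈ tg π z E t}ᶜ)
      (fun x hx t a1 a2 => hx ⟨t, a1, a2⟩) ζ p
    refine le_trans (ncard_le_ncard ?_ ((fin0 p true fun _ h => h.1).union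
      (fin0 p true fun _ h => h.1.2))) ((ncard_union_le _ _).trans (add_le_add (tn ζ p).1 h3))
    intro t ht
    by_cases hn : nD lam π z s₀ S ζ t
    · exact Or.inr ⟨ht, hn⟩
    · exact Or.inl ⟨ht.2, not_le.1 hn⟩

end Pool.Agent.MP_da1f04_co.S91
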