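import Pool.Agent.MP_da1f04_co.S91.Spec
import Pool.Agent.MP_da1f04_co.R91.Basic

/-! Renaming the inner colours along the tree. -/

set_option autoImplicit false

namespace Pool.Agent.MP_da1f04_co.S91

open Set Function I91

namespace Ren

/-- Names and forbidden colours. -/
structure St (N ρ : ℕ) (n : ℕ → ℕ) (F : Set ℕ) (m : ℕ) : Prop where
  inj : InjOn n (Iio ρ)
  lt : ∀ i < ρ, n i < N
  dis : ∀ i < ρ, n i ∉ F
  fin : F.Finite
  card : F.ncard ≤ m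

theorem rename {N ρ m m' h : ℕ} {n : ℕ → ℕ} {F Y : Set ℕ} (S : St N ρ n F m) (hY : Y.Finite)
    (hh : Y.ncard ≤ h) (hm : (F ∪ Y).ncard ≤ m')
    (hN : (∃ i < ρ, n i ∈ Y) → ρ + m' + h ≤ N) :
    ∃ n' : ℕ → ℕ, St N ρ n' (F ∪ Y) m' ∧ (∀ i, n i ∉ Y → n' i = n i) ∧
      ∀ i < ρ, n i ∈ Y → n' i ∉ n '' Iio ρ := by
  classical
  by_cases he : ∃ i < ρ, n i ∈ Y
  · have hB : {i | i < ρ ∧ n i ∈ Y}.Finite := (finite_Iio ρ).subset fun _ h => h.1
    have h1 : {i | i < ρ ∧ n i ∈ Y}.ncard ≤ h :=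
      (ncard_le_ncard_of_injOn n (fun _ h => h.2) (S.inj.mono fun _ h => h.1) hY).trans hh
    have h2 : (n '' Iio ρ ∪ (F ∪ Y)).ncard ≤ ρ + m' :=
      (ncard_union_le _ _).trans (add_le_add
        ((ncard_image_le (finite_Iio ρ)).trans (by simp)) hm)
    obtain ⟨γ, g1, g2⟩ := G91.inj_avoid hB (((finite_Iio ρ).image n).union (S.fin.union hY))
      (c := N) (by have := hN he; omega)
    refine ⟨fun i => if n i ∈ Y then γ i else n i, ⟨fun i hi j hj e => ?_, fun i hi => ?_,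
      fun i hi => ?_, S.fin.union hY, hm⟩, fun i hi => if_neg hi, fun i hi hy => ?_⟩
    · by_cases a : n i ∈ Y <;> by_cases a' : n j ∈ Y <;> simp only [a, a', if_true, if_false] at e
      · exact g1 ⟨hi, a⟩ ⟨hj, a'⟩ e
      · exact ((g2 i ⟨hi, a⟩).2 (Or.inl ⟨j, hj, e.symm⟩)).elim
      · exact ((g2 j ⟨hj, a'⟩).2 (Or.inl ⟨i, hi, e⟩)).elim
      · exact S.inj hi hj e
    · by_cases a : n i ∈ Y <;> simp only [a, if_true, if_false]
      exacts [(g2 i ⟨hi, a⟩).1, S.lt i hi]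
    · by_cases a : n i ∈ Y <;> simp only [a, if_true, if_false]
      · exact fun e => (g2 i ⟨hi, a⟩).2 (Or.inr e)
      · exact fun e => e.elim (S.dis i hi) a
    · simp only [hy, if_true]
      exact fun e => (g2 i ⟨hi, hy⟩).2 (Or.inl e)
  · exact ⟨n, ⟨S.inj, S.lt, fun i hi e => e.elim (S.dis i hi) fun e => he ⟨i, hi, e⟩,
      S.fin.union hY, hm⟩, fun _ _ => rfl, fun i hi hy => (he ⟨i, hi, hy⟩).elim⟩

variable {V X Z : Type} {lam : V → Nd} {π : V → X} {z : V → Z} {b : Z → Nd}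
  {E : V → V → Nd → Prop} {k ρ h δ : ℕ} {ι : V → ℕ}

variable (lam z E) in
/-- The special times on the path to a node. -/
def Tm (ζ : Z) (p : Nd) : Set Nd := {t | (Df z E ζ t ∨ Bad lam z E ζ t) ∧ t ++ [true] <+: p}

theorem tm_fin (ζ : Z) (p : Nd) : (Tm lam z E ζ p).Finite :=
  (R91.finite_pre p).subset fun _ h => (pre_app _ _).trans h.2

theorem tm_mono (ζ : Z) (s : Nd) (d : Bool) :
    (Tm lam z E ζ s).ncard ≤ (Tm lam z E ζ (s ++ [d])).ncard :=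
  ncard_le_ncard (fun _ h => ⟨h.1, h.2.trans (pre_app _ _)⟩) (tm_fin _ _)

theorem tm_succ {ζ : Z} {s : Nd} (hs : Df z E ζ s ∨ Bad lam z E ζ s) :
    (Tm lam z E ζ s).ncard + 1 ≤ (Tm lam z E ζ (s ++ [true])).ncard := by
  rw [← ncard_insert_of_notMem (a := s) (fun h => not_app_pre h.2) (tm_fin _ _)]
  refine ncard_le_ncard ?_ (tm_fin _ _)
  rintro t (rfl | ht)
  exacts [⟨hs, List.prefix_rfl⟩, ⟨ht.1, ht.2.trans (pre_app _ _)⟩]

variable (lam π z E ρ ι) in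
/-- A colouring of the part below a node. -/
structure Sol (N : ℕ) (s : Nd) (n : Z → ℕ → ℕ) (F : Z → Set ℕ) (c : V → ℕ) : Prop where
  lt : ∀ u, s <+: lam u → c u < N
  nf : ∀ u, s <+: lam u → c u ∉ F (z u)
  nm : ∀ u, s <+: lam u → c u = n (z u) (ι u) ∨ c u ∉ n (z u) '' Iio ρ
  st : ∀ u, s <+: lam u → (∀ t, s <+: t → t ++ [true] <+: lam u → ¬ Df z E (z u) t) →
    c u = n (z u) (ι u)
  un : ∀ u v, s <+: lam u → π u = π v → (c u = c v ↔ ι u = ι v)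
  ev : ∀ u x t, E u x t → s <+: t → c u ≠ c x

theorem main [Finite V] (L : LV lam π z b E k) (h1 : ∀ u, ι u < ρ)
    (h2 : ∀ u x t, E u x t → z u = z x → ι u ≠ ι x)
    (h3 : ∀ t, ((fun x => (π x, ι x)) '' {x | ∃ u, E u x t}).ncard ≤ h) (h4 : Few lam z E δ)
    (s : Nd) : ∀ (n : Z → ℕ → ℕ) (F : Z → Set ℕ),
      (∀ ζ, St (ρ + h * (δ + 1)) ρ (n ζ) (F ζ) (h * (Tm lam z E ζ s).ncard)) →
      ∃ c, Sol lam π z E ρ ι (ρ + h * (δ + 1)) s n F c := by
  classical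
  refine R91.tree_ind lam (P := fun s => ∀ (n : Z → ℕ → ℕ) (F : Z → Set ℕ),
      (∀ ζ, St (ρ + h * (δ + 1)) ρ (n ζ) (F ζ) (h * (Tm lam z E ζ s).ncard)) →
      ∃ c, Sol lam π z E ρ ι (ρ + h * (δ + 1)) s n F c) (fun s hs n F _ => ?_)
    (fun s ih n F S => ?_) s
  · exact ⟨fun _ => 0, fun u hu => (hs u hu).elim, fun u hu => (hs u hu).elim,
      fun u hu => (hs u hu).elim, fun u hu => (hs u hu).elim, fun u _ hu => (hs u hu).elim,
      fun u x t e ht => (hs u (ht.trans ((pre_app _ _).trans (L.ev u x t e).1))).elim⟩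
  have nes : ∀ d, s ++ [d] ≠ s := fun d e => by simpa using congrArg List.length e
  obtain ⟨c₀, A⟩ := ih (s ++ [false]) (pre_app _ _) (nes _) n F fun ζ =>
    ⟨(S ζ).inj, (S ζ).lt, (S ζ).dis, (S ζ).fin,
      (S ζ).card.trans (Nat.mul_le_mul_left _ (tm_mono ζ s _))⟩
  let Y : Z → Set ℕ := fun ζ =>
    c₀ '' {x | ∃ u, E u x s ∧ z u = ζ ∧ (z x ≠ ζ ∨ c₀ x ∉ n ζ '' Iio ρ)}
  have y1 : ∀ ζ, (Y ζ).ncard ≤ h := fun ζ => by
    refine (G91.factor_le _ _ (fun x => (π x, ι x)) ?_).trans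
      (le_trans (ncard_le_ncard (image_mono fun x hx => hx.imp fun _ h => h.1) (toFinite _))
        (h3 s))
    rintro x ⟨u, e, -⟩ x' - e'
    exact (A.un x x' (L.ev u x s e).2.1 (congrArg Prod.fst e')).2 (congrArg Prod.snd e')
  have y2 : ∀ ζ, (∃ i < ρ, n ζ i ∈ Y ζ) → Df z E ζ s := by
    rintro ζ ⟨i, hi, x, ⟨u, e, e1, e2 | e2⟩, e3⟩
    · exact ⟨u, x, e, e1, e2⟩
    · exact (e2 ⟨i, hi, e3.symm⟩).elim
  have y3 : ∀ ζ, (Y ζ).Nonempty → Df z E ζ s ∨ Bad lam z E ζ s := by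
    rintro ζ ⟨_, x, ⟨u, e, e1, e2⟩, -⟩
    by_cases a : z x = ζ
    · refine Or.inr ⟨u, x, e, e1, a, by_contra fun hn => e2.resolve_left (not_not.2 a) ?_⟩
      refine ⟨ι x, h1 x, a ▸ (A.st x (L.ev u x s e).2.1 fun t a1 a2 a3 =>
        hn ⟨t, a ▸ a3, a1, a2⟩).symm⟩
    · exact Or.inl ⟨u, x, e, e1, a⟩
  have y4 : ∀ ζ, ∃ n' : ℕ → ℕ, St (ρ + h * (δ + 1)) ρ n' (F ζ ∪ Y ζ)
      (h * (Tm lam z E ζ (s ++ [true])).ncard) ∧ (∀ i, n ζ i ∉ Y ζ → n' i = n ζ i) ∧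
      ∀ i < ρ, n ζ i ∈ Y ζ → n' i ∉ n ζ '' Iio ρ := fun ζ => by
    refine rename (S ζ) ((toFinite _).image _) (y1 ζ) ?_ fun _ => ?_
    · rcases (Y ζ).eq_empty_or_nonempty with e | e
      · rw [e, union_empty]
        exact (S ζ).card.trans (Nat.mul_le_mul_left _ (tm_mono ζ s _))
      · refine (ncard_union_le _ _).trans ((add_le_add (S ζ).card (y1 ζ)).trans ?_)
        exact le_trans (le_of_eq (Nat.mul_succ _ _).symm)
          (Nat.mul_le_mul_left _ (tm_succ (y3 ζ e)))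
    · have : h * (Tm lam z E ζ (s ++ [true])).ncard ≤ h * δ :=
        Nat.mul_le_mul_left _ (h4 ζ (s ++ [true]))
      rw [Nat.mul_succ]
      omega
  choose n' s1 s2 s3 using y4
  obtain ⟨c₁, B⟩ := ih (s ++ [true]) (pre_app _ _) (nes _) n' (fun ζ => F ζ ∪ Y ζ) s1
  have nm1 : ∀ u, s ++ [true] <+: lam u → c₁ u = n (z u) (ι u) ∨ c₁ u ∉ n (z u) '' Iio ρ := by
    intro u hu
    rcases B.nm u hu with a | a
    · by_cases a' : n (z u) (ι u) ∈ Y (z u)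
      · exact Or.inr (a ▸ s3 _ _ (h1 u) a')
      · exact Or.inl (a.trans (s2 _ _ a'))
    · refine Or.inr ?_
      rintro ⟨i, hi, e⟩
      by_cases a' : n (z u) i ∈ Y (z u)
      · exact B.nf u hu (Or.inr (e ▸ a'))
      · exact a ⟨i, hi, (s2 _ _ a').trans e⟩
  let c : V → ℕ := fun u => if s ++ [false] <+: lam u then c₀ u else
    if s ++ [true] <+: lam u then c₁ u else n (z u) (ι u)
  have e0 : ∀ u, s ++ [false] <+: lam u → c u = c₀ u := fun u hu => if_pos hu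
  have e1 : ∀ u, s ++ [true] <+: lam u → c u = c₁ u := fun u hu =>
    (if_neg (not_both hu)).trans (if_pos hu)
  have e2 : ∀ u, ¬ s ++ [false] <+: lam u → ¬ s ++ [true] <+: lam u → c u = n (z u) (ι u) :=
    fun u hu hu' => (if_neg hu).trans (if_neg hu')
  have tri : ∀ u, s ++ [false] <+: lam u ∨ s ++ [true] <+: lam u ∨
      (¬ s ++ [false] <+: lam u ∧ ¬ s ++ [true] <+: lam u) := fun u => by tauto
  refine ⟨c, fun u _ => ?_, fun u _ => ?_, fun u _ => ?_, fun u _ hd => ?_, fun u v _ e => ?_,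
    fun u x t e ht => ?_⟩
  · rcases tri u with a | a | a
    exacts [e0 u a ▸ A.lt u a, e1 u a ▸ B.lt u a, e2 u a.1 a.2 ▸ (S _).lt _ (h1 u)]
  · rcases tri u with a | a | a
    exacts [e0 u a ▸ A.nf u a, e1 u a ▸ fun h => B.nf u a (Or.inl h),
      e2 u a.1 a.2 ▸ (S _).dis _ (h1 u)]
  · rcases tri u with a | a | a
    exacts [e0 u a ▸ A.nm u a, e1 u a ▸ nm1 u a, Or.inl (e2 u a.1 a.2)]
  · rcases tri u with a | a | a
    · exact e0 u a ▸ A.st u a fun t a1 => hd t ((pre_app _ _).trans a1)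
    · rw [e1 u a, B.st u a fun t a1 => hd t ((pre_app _ _).trans a1)]
      exact s2 _ _ fun hy => hd s List.prefix_rfl a (y2 _ ⟨_, h1 u, hy⟩)
    · exact e2 u a.1 a.2
  · have l := L.lf u v e
    rcases tri u with a | a | a
    · rw [e0 u a, e0 v (l ▸ a)]
      exact A.un u v a e
    · rw [e1 u a, e1 v (l ▸ a)]
      exact B.un u v a e
    · rw [e2 u a.1 a.2, e2 v (l ▸ a.1) (l ▸ a.2), ← L.zn u v e]
      exact ⟨(S _).inj (h1 u) (h1 v), fun h => by rw [h]⟩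
  · obtain ⟨a1, a2, -⟩ := L.ev u x t e
    by_cases hs : s = t
    · subst hs
      rw [e1 u a1, e0 x a2]
      intro ee
      by_cases a : z x ≠ z u ∨ c₀ x ∉ n (z u) '' Iio ρ
      · exact B.nf u a1 (Or.inr ⟨x, ⟨u, e, rfl, a⟩, ee.symm⟩)
      · rw [not_or, not_not, not_not] at a
        have b1 := (nm1 u a1).resolve_right (not_not.2 (ee ▸ a.2))
        have b2 := (A.nm x a2).resolve_right (not_not.2 (a.1 ▸ a.2))
        rw [a.1] at b2
        exact h2 u x s e a.1.symm ((S _).inj (h1 u) (h1 x) (b1.symm.trans (ee.trans b2)))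
    · obtain ⟨d, hd⟩ := pre_step ht hs
      have a3 := hd.trans ((pre_app _ _).trans a1)
      have a4 := hd.trans ((pre_app _ _).trans a2)
      cases d
      · rw [e0 u a3, e0 x a4]
        exact A.ev u x t e hd
      · rw [e1 u a3, e1 x a4]
        exact B.ev u x t e hd

end Ren

theorem ren : RenSt := by
  intro V X Z _ lam π z b E k ρ h δ ι L h1 h2 h3 h4
  obtain ⟨c, A⟩ := Ren.main L h1 h2 h3 h4 [] (fun _ i => i) (fun _ => ∅) fun _ =>
    ⟨fun _ _ _ _ e => e, fun i hi => hi.trans_le (Nat.le_add_right _ _), fun _ _ h => h,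
      finite_empty, by simp⟩
  exact ⟨c, fun u => A.lt u List.nil_prefix, fun u v => A.un u v List.nil_prefix,
    fun u x t e => A.ev u x t e List.nil_prefix⟩

end Pool.Agent.MP_da1f04_co.S91
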