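import Pool.Agent.MP_da1f04_co.S91.Spec

/-! After a bounded split the zones form a level. -/

set_option autoImplicit false

namespace Pool.Agent.MP_da1f04_co.S91

open Set Function I91

namespace Split

variable {V X Y : Type} {G : SimpleGraph V} {lam : V → Nd} {π : V → X} {cl : Nd → V → Y}
  {al : V → Nd → Prop} {k g : ℕ} {u v : V} {s : Nd}

/-- A colouring of the clusters. -/
theorem killq [Finite V] {Q : Type} {R : V → V → Prop} (q : V → Q) (C : ℕ)
    (hne : ∀ u v, R u v → q u ≠ q v)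
    (h : ∀ w, (q '' {v | ∃ u, R u v ∧ q u = q w}).ncard ≤ C) :
    ∃ ψ : Q → Fin (2 * C + 1), ∀ u v, R u v → ψ (q u) ≠ ψ (q v) := by
  classical
  obtain ⟨φ, hφ⟩ := Kill.outdeg (R := fun u v => ∃ u' v', R u' v' ∧ q u' = q u ∧ q v' = q v) q C
    (fun u v ⟨u', v', r, a, b⟩ => a ▸ b ▸ hne u' v' r) fun a => by
      by_cases e : ∃ w, q w = a
      · obtain ⟨w, rfl⟩ := e
        refine le_trans (ncard_le_ncard ?_ (toFinite _)) (h w)
        rintro _ ⟨v, ⟨u, ⟨u', v', r, a, b⟩, c⟩, rfl⟩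
        exact ⟨v', ⟨u', r, a.trans c⟩, b⟩
      · refine le_trans (le_of_eq ((ncard_eq_zero (toFinite _)).2 (image_eq_empty.2
          (eq_empty_of_forall_notMem ?_)))) (Nat.zero_le _)
        exact fun v ⟨u, _, c⟩ => e ⟨u, c⟩
  refine ⟨fun a => if e : ∃ w, q w = a then φ e.choose else 0, fun u v r => ?_⟩
  have a : ∃ w, q w = q u := ⟨u, rfl⟩
  have b : ∃ w, q w = q v := ⟨v, rfl⟩
  simp only [dif_pos a, dif_pos b]
  exact hφ _ _ ⟨u, v, r, a.choose_spec.symm, b.choose_spec.symm⟩

theorem zn (H : CS G lam π cl al k g) (e : π u = π v) : zone G lam u = zone G lam v := by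
  have key : ∀ u v, π u = π v → past G lam u (lam u) ⊆ past G lam v (lam v) := fun u v e y hy =>
    ⟨H.mod u v y e (mem_past_leaf.1 hy), H.lf u v e ▸ hy.2⟩
  exact fs_k0 (Prod.ext (H.lf u v e) ((key u v e).antisymm (key v u e.symm)))

theorem heads [Finite V] (H : CS G lam π cl al k g) (t : Nd) {S : Set V}
    (h : ∀ x ∈ S, ∃ u, out G lam u x t) : (π '' S).ncard ≤ k :=
  (G91.factor_le S π (cl t) fun x a x' b e =>
    (h x a).elim fun u a => (h x' b).elim fun u' b => (H.twin t u x u' x' a b e).1).trans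
    (le_trans (ncard_le_ncard (image_mono h) ((toFinite _).image _)) (H.targ t))

variable (G lam al) in
/-- Zones of living homes with a nonempty past. -/
def Keys (s : Nd) : Set (Nd × Set V) :=
  zone G lam '' {u | s <+: lam u ∧ al u s ∧ (past G lam u s).Nonempty}

theorem keys [Finite V] (H : CS G lam π cl al k g) (s : Nd) : (Keys G lam al s).ncard ≤ g :=
  (G91.factor_le _ _ (fun u => past G lam u s) fun _ a _ b e =>
    zone_congr a.1 b.1 e a.2.2).trans
    (le_trans (ncard_le_ncard (image_mono fun _ a => And.intro a.1 a.2.1) (toFinite _)) (H.keys s))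

end Split

open Split in
theorem split : SplitSt := by
  intro k g
  refine ⟨(2 * k + 1) * ((2 * (2 * g) + 1) * (2 * g + 1)), fun V X Y _ G lam π cl al H => ?_⟩
  have ne : ∀ {u x t}, out G lam u x t → π u ≠ π x := fun h e => h.lam_ne (H.lf _ _ e)
  obtain ⟨a, ha⟩ := killq (R := fun u x => out G lam u x (zone G lam u).1.dropLast) π k
    (fun u v h => ne h) fun w => heads H (zone G lam w).1.dropLast
      fun x ⟨u, h, e⟩ => ⟨u, zn H e ▸ h⟩
  obtain ⟨b, hb⟩ := killq (R := fun u v => zone G lam u ≠ zone G lam v ∧ zone G lam v ∈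
      Keys G lam al (zone G lam u).1 ∪ Keys G lam al (zone G lam u).1.dropLast) (zone G lam) (2 * g)
    (fun u v h => h.1) fun w => le_trans
      (ncard_le_ncard (t := Keys G lam al (zone G lam w).1 ∪ Keys G lam al (zone G lam w).1.dropLast)
        (by
          rintro _ ⟨v, ⟨u, h, e⟩, rfl⟩
          exact e ▸ h.2)
        (((toFinite _).image _).union ((toFinite _).image _)))
      ((ncard_union_le _ _).trans (two_mul g ▸ add_le_add (keys H _) (keys H _)))
  obtain ⟨c, hc⟩ := killq (R := fun u x => π u ≠ π x ∧ (zone G lam u).1.dropLast <+: lam x ∧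
      ¬ al x (zone G lam u).1.dropLast) π g (fun u v h => h.1) fun w => le_trans
      (ncard_le_ncard (image_mono fun x ⟨u, h, e⟩ => zn H e ▸ h.2) (toFinite _))
      (H.dead (zone G lam w).1.dropLast)
  refine ⟨fun u => finProdFinEquiv (a (π u), finProdFinEquiv (b (zone G lam u), c (π u))),
    fun u v e => by simp only [e, zn H e], fun j => ?_⟩
  generalize hφ : (fun u => finProdFinEquiv (a (π u),
    finProdFinEquiv (b (zone G lam u), c (π u)))) = φ
  have sm : ∀ {u v}, φ u = j → φ v = j → a (π u) = a (π v) ∧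
      b (zone G lam u) = b (zone G lam v) ∧ c (π u) = c (π v) := fun p q => by
    have := p.trans q.symm
    simpa only [← hφ, EmbeddingLike.apply_eq_iff_eq, Prod.mk.injEq] using this
  have zu : ∀ {u x t}, out G lam u x t →
      (zone G lam u).1 <+: t ++ [true] ∧ (zone G lam u).2.Nonempty :=
    fun h => zone_min h.2.1 ⟨_, h.mem⟩
  have ky : ∀ {u x t s}, out G lam u x t → s <+: t → (zone G lam u).1 <+: s →
      zone G lam u ∈ Keys G lam al s := fun h p q =>
    ⟨_, ⟨p.trans h.pre, H.live _ _ _ _ h p, (zu h).2.mono (past_mono q)⟩, rfl⟩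
  have ev : ∀ {u x t}, out G lam u x t → φ u = j → φ x = j → (zone G lam u).1 <+: t :=
    fun h p q => (pre_app_cases (zu h).1).resolve_left fun e =>
      ha _ _ (by rwa [e, List.dropLast_concat]) (sm p q).1
  refine ⟨H.lf, fun u v => zn H, fun u => zone_pre, fun u x t ⟨h, p, q⟩ => ⟨h.2.1, h.2.2, ev h p q⟩,
    fun u x t ⟨h, p, q⟩ e => ?_, fun t => heads H t fun x ⟨u, h⟩ => ⟨u, h.1⟩,
    fun u x t u' x' t' s ⟨h, p, _⟩ ⟨h', p', _⟩ a1 a2 b1 b2 => by_contra fun e => ?_⟩
  · refine (pre_or_app zone_pre h.2.2).resolve_left fun z1 => ?_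
    have z2 : (zone G lam x).2.Nonempty :=
      (fsn_spec (P := fun _ τ => τ.Nonempty)).resolve_right fun e =>
        not_app_pre (h.2.2.trans (e ▸ z1))
    obtain ⟨f, -, hf, -⟩ := zone_last h.2.1 ⟨x, h.mem⟩
    have ft := ev h p q
    have df : (zone G lam u).1.dropLast = f := by rw [hf, List.dropLast_concat]
    have fx : f <+: lam x := (pre_app _ _).trans ((hf ▸ ft).trans h.pre')
    rcases pre_or_app z1 (hf ▸ ft) with r | r
    · by_cases l : al x f
      · exact hb u x ⟨e, .inr (df ▸ ⟨x, ⟨fx, l, z2.mono (past_mono r)⟩, rfl⟩)⟩ (sm p q).2.1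
      · exact hc u x ⟨ne h, df ▸ fx, df ▸ l⟩ (sm p q).2.2
    · exact hb x u ⟨Ne.symm e, .inl (ky h z1 (hf ▸ r))⟩ (sm q p).2.1
  · rcases pre_total a1 b1 with r | r
    · exact hb u' u ⟨Ne.symm e, .inl (ky h (b1.trans a2) r)⟩ (sm p' p).2.1
    · exact hb u u' ⟨e, .inl (ky h' (a1.trans b2) r)⟩ (sm p p').2.1

end Pool.Agent.MP_da1f04_co.S91
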