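import Pool.Agent.MP_da1f04_co.S91.Spec

/-! From the inner edges to all edges, and the induction on the clique number. -/

set_option autoImplicit false

namespace Pool.Agent.MP_da1f04_co.S91

open Set Function I91

theorem Fine.mono {V X : Type} {G : SimpleGraph V} {π : V → X} {κ : V → ℕ} {N M : ℕ}
    (h : Fine G π κ N) (e : N ≤ M) : Fine G π κ M :=
  let ⟨c, a, b⟩ := h
  ⟨c, fun u => (a u).trans_le e, b⟩

theorem stepSt (h1 : LevelSt) (h2 : SplitSt) : S91.StepSt := by
  intro k g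
  obtain ⟨C1, lv⟩ := h1 k
  obtain ⟨C0, sp⟩ := h2 k g
  refine ⟨C0 * (5 + C1), fun V X Y _ G lam π cl al κ a A ρ h s p r cs ty ⟨ι, i1, i2, i3⟩ hh r1 pw cd => ?_⟩
  obtain ⟨φ, f1, f2⟩ := sp V X Y G lam π cl al cs
  choose c c1 c2 c3 c4 using fun j => lv V X _ lam π _ _ _ ρ h A s p r ι κ (f2 j) i1 ty.lt i2
    (fun u x t e z => i3 u x ⟨e.1.1, z⟩) (fun t => by
      refine le_trans (G91.factor_le _ _ (fun x => (π x, κ x)) fun u _ w _ e => ?_)
        (le_trans (ncard_le_ncard (image_mono fun x e => e.imp fun u e => e.1)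
          ((toFinite {x | ∃ u, out G lam u x t}).image _)) (hh t))
      obtain ⟨e1, e2⟩ := Prod.mk.inj e
      rw [e1, i2 u w e1 e2]) r1 pw cd
  refine Fine.mono (N := (p * (ρ + 5 * (h * r)) + C1 * (r ^ 2 * A)) * C0)
    ⟨fun u => c (φ u) u * C0 + φ u, fun u => ?_, fun u v e e' => ?_, fun u v ad e => ?_⟩ ?_
  · have e := Nat.mul_le_mul_right C0 (Nat.succ_le_of_lt (c1 (φ u) u))
    rw [Nat.succ_mul] at e
    exact lt_of_lt_of_le (Nat.add_lt_add_left (φ u).2 _) e
  · simp only [f1 u v e, c2 _ u v e e']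
  · have e1 : φ u = φ v := by
      have := congrArg (· % C0) e
      simp only [Nat.mul_add_mod_of_lt (φ _).2] at this
      exact Fin.ext this
    have e2 : c (φ v) u = c (φ v) v := by
      simp only [e1, Nat.add_right_cancel_iff] at e
      exact Nat.eq_of_mul_eq_mul_right (φ v).pos e
    rcases cs.adj u v ad with q | ⟨t, q⟩ | ⟨t, q⟩
    · exact c3 _ u v q (ty.ne u v q ad) (i3 u v ⟨ad, (f2 (φ v)).zn u v q⟩) e2
    · exact c4 _ u v t ⟨q, e1, rfl⟩ e2
    · exact c4 _ v u t ⟨q, rfl, e1⟩ e2.symm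
  · rw [mul_comm _ C0, mul_assoc]
    refine Nat.mul_le_mul_left _ ?_
    nlinarith [Nat.zero_le (p * ρ), Nat.zero_le (C1 * (p * (ρ + h * r))), Nat.zero_le (r ^ 2 * A)]

namespace Step

variable {s p r : ℕ}

theorem succ {j : ℕ} (h : 2 ≤ j) : FF s p (j + 1) = p * FF s p j := by
  obtain ⟨j, rfl⟩ := Nat.exists_eq_add_of_le' h
  simp only [FF]
  ring

theorem p1 (P : Par s p r) : 1 ≤ p := by
  have := P.sq
  have := Nat.one_le_pow 2 r P.r1
  omega

theorem mono (P : Par s p r) : Monotone (FF s p) := monotone_nat_of_le_succ fun j => by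
  rcases j with _ | _ | j
  · exact le_rfl
  · simpa [FF] using P.s1
  · rw [succ (j := j + 1 + 1) (by omega)]
    exact Nat.le_mul_of_pos_left _ (p1 P)

theorem dbl (P : Par s p r) {j : ℕ} (h : 1 ≤ j) : p * FF s p j ≤ 2 * FF s p (j + 1) := by
  rcases h.eq_or_lt with rfl | h
  · simpa [FF] using P.ps
  · rw [succ h]; omega

theorem rp (P : Par s p r) : r ≤ 4 * p := (Nat.le_self_pow two_ne_zero r).trans P.sq

theorem sq (P : Par s p r) {a j : ℕ} (h : 1 ≤ a) (hj : a + 1 ≤ j) (c : ℕ) :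
    r ^ 2 * (c * FF s p a) ≤ 8 * c * FF s p j := by
  calc r ^ 2 * (c * FF s p a) ≤ 4 * p * (c * FF s p a) := Nat.mul_le_mul_right _ P.sq
    _ = 4 * c * (p * FF s p a) := by ring
    _ ≤ 4 * c * (2 * FF s p j) :=
      Nat.mul_le_mul_left _ ((dbl P h).trans (Nat.mul_le_mul_left _ (mono P hj)))
    _ = _ := by ring

end Step

open Step in
theorem cs (h1 : S91.StepSt) (h2 : InnerSt) : CsSt := by
  intro k g a d c a1
  obtain ⟨D, st⟩ := h1 k g
  induction d with
  | zero =>
    exact ⟨c, fun V X Y _ G lam π cl al κ s p r cs ty fr _ _ =>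
      (h2 V X Y G lam π cl al k g κ a _ cs ty).2.2.2.2.1 fr⟩
  | succ d ih =>
    obtain ⟨C, ih⟩ := ih
    refine ⟨D * (C + 8 * k * (c + 1) + 8 * c), fun V X Y _ G lam π cl al κ s p r cs ty fr P cd => ?_⟩
    obtain ⟨i1, i2, -, i4, -, i6, i7⟩ := h2 V X Y G lam π cl al k g κ a _ cs ty
    have fi := ih V X Y _ lam π cl al κ s p r i1 i2 (i4 d fr) P cd
    have := rp P
    rw [mul_assoc D]
    rcases d with _ | d
    · rcases a1.eq_or_lt with rfl | a2
      · refine (st V X Y G lam π cl al κ _ _ _ k s s 1 cs ty fi (i7 fr) le_rfl le_rfl cd).mono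
          (Nat.mul_le_mul_left _ ?_)
        have := P.s1
        simp only [FF]
        nlinarith [Nat.zero_le (k * s), Nat.zero_le (k * c * s), Nat.mul_le_mul_left c this]
      · refine (st V X Y G lam π cl al κ _ _ _ k s p r cs ty fi (i7 fr) P.r1 P.pw cd).mono
          (Nat.mul_le_mul_left _ ?_)
        have e := sq P a1 le_rfl c
        have e2 : r ≤ 8 * FF s p a := by
          have : s * 1 ≤ _ := mono P (show 2 ≤ a from a2)
          have := P.ps
          omega
        have e3 := Nat.mul_le_mul_left (p * k) e2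
        simp only [Nat.add_zero, zero_add]
        rw [succ a2] at *
        nlinarith [Nat.zero_le (k * c * (p * FF s p a))]
    · refine (st V X Y G lam π cl al κ _ _ _ _ s p r cs ty fi i6 P.r1 P.pw cd).mono
        (Nat.mul_le_mul_left _ ?_)
      have e := sq P a1 (show a + 1 ≤ a + (d + 1 + 1) by omega) c
      have e2 : p * (r * FF s p a) ≤ 8 * FF s p (a + (d + 1 + 1)) := by
        calc p * (r * FF s p a) ≤ p * (4 * p * FF s p a) :=
              Nat.mul_le_mul_left _ (Nat.mul_le_mul_right _ this)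
          _ = 4 * p * (p * FF s p a) := by ring
          _ ≤ 4 * p * (2 * FF s p (a + 1)) := Nat.mul_le_mul_left _ (dbl P a1)
          _ = 8 * FF s p (a + 1 + 1) := by rw [succ (j := a + 1) (by omega)]; ring
          _ ≤ _ := Nat.mul_le_mul_left _ (mono P (by omega))
      have e3 := Nat.mul_le_mul_left (k * c) e2
      have e4 : FF s p (a + (d + 1 + 1)) = p * FF s p (a + (d + 1)) := succ (j := a + (d + 1)) (by omega)
      rw [mul_add p, mul_left_comm p C, ← e4]
      nlinarith [Nat.zero_le (k * FF s p (a + (d + 1 + 1)))]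

end Pool.Agent.MP_da1f04_co.S91
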