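import Pool.Agent.MP_da1f04_co.S91.Spec

/-! Turns at which the level drops and turns at which it does not. -/

set_option autoImplicit false

namespace Pool.Agent.MP_da1f04_co.S91

open Set Function I91

namespace Turn

theorem pack {I X : Type} (A : I → Set X) (m : ℕ) (T : Finset I) : ∀ B : Set X, B.Finite →
    (∀ t ∈ T, A t ⊆ B) → (∀ t ∈ T, m ≤ (A t).ncard) →
    (∀ t ∈ T, ∀ t' ∈ T, t ≠ t' → Disjoint (A t) (A t')) → T.card * m ≤ B.ncard := by
  classical
  induction T using Finset.induction_on with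
  | empty => intros; simp
  | insert a T ha ih =>
    intro B hB h1 h2 h3
    have a1 := Finset.mem_insert_self a T
    have := ih (B \ A a) hB.diff (fun t ht => subset_diff.2 ⟨h1 t (Finset.mem_insert_of_mem ht),
      h3 t (Finset.mem_insert_of_mem ht) a a1 fun e => ha (e ▸ ht)⟩)
      (fun t ht => h2 t (Finset.mem_insert_of_mem ht))
      fun t ht t' ht' => h3 t (Finset.mem_insert_of_mem ht) t' (Finset.mem_insert_of_mem ht')
    have e := ncard_diff_add_ncard_of_subset (h1 a a1) hB
    have := h2 a a1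
    rw [Finset.card_insert_of_notMem ha, add_mul]
    omega

theorem pre_fin (p : Nd) : {t : Nd | t <+: p}.Finite :=
  (List.finite_toSet p.inits).subset fun t h => (List.mem_inits t p).2 h

variable {V X : Type} [Finite V] (lam : V → Nd) (π : V → X) (S : Set V)

theorem mu_anti {s t : Nd} (h : s <+: t) : mu lam π S t ≤ mu lam π S s :=
  ncard_le_ncard (image_mono fun _ hx => ⟨hx.1, h.trans hx.2⟩) (toFinite _)

theorem mu_le (s : Nd) : mu lam π S s ≤ (π '' S).ncard :=
  ncard_le_ncard (image_mono fun _ hx => hx.1) (toFinite _)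

end Turn

open Turn

theorem turn : TurnSt := by
  intro V X _ lam π S r s₀ hl hs hS p
  have lr : ∀ t, Nat.log s₀ (mu lam π S t) ≤ r := fun t => by
    rcases Nat.eq_zero_or_pos (mu lam π S t) with h | h
    · simp [h]
    · exact Nat.lt_succ_iff.1 (Nat.log_lt_of_lt_pow h.ne' ((mu_le lam π S t).trans_lt hS))
  constructor
  · rw [← ncard_Iio_nat r]
    refine ncard_le_ncard_of_injOn (fun t => Nat.log s₀ (mu lam π S (t ++ [true])))
      (fun t ht => ht.2.trans_le (lr t)) ?_ (finite_Iio r)
    have key : ∀ t t' : Nd, t ++ [true] <+: t' →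
        Nat.log s₀ (mu lam π S (t' ++ [true])) < Nat.log s₀ (mu lam π S t') →
        Nat.log s₀ (mu lam π S (t' ++ [true])) < Nat.log s₀ (mu lam π S (t ++ [true])) :=
      fun t t' h h' => h'.trans_le (Nat.log_mono_right (mu_anti lam π S h))
    intro t ht t' ht' e
    rcases pre_or_app ((pre_app t true).trans ht.1) ht'.1 with a | a
    · rcases pre_or_app ((pre_app t' true).trans ht'.1) ht.1 with b | b
      · exact pre_antisymm a b
      · exact absurd e (key t t' b ht'.2).ne'
    · exact absurd e (key t' t a ht.2).ne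
  · have hf : {t | t ++ [false] <+: p ∧ 0 < mu lam π S (t ++ [true]) ∧
        Nat.log s₀ (mu lam π S t) ≤ Nat.log s₀ (mu lam π S (t ++ [true]))}.Finite :=
      (pre_fin p).subset fun t ht => (pre_app t false).trans ht.1
    rw [mul_comm, ← ncard_Iio_nat (r + 1)]
    refine ncard_fib (finite_Iio _) (fun t => Nat.log s₀ (mu lam π S t)) s₀
      (fun t _ => Nat.lt_succ_of_le (lr t)) hf fun l _ => ?_
    set T := {a | a ∈ {t | t ++ [false] <+: p ∧ 0 < mu lam π S (t ++ [true]) ∧
      Nat.log s₀ (mu lam π S t) ≤ Nat.log s₀ (mu lam π S (t ++ [true]))} ∧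
        Nat.log s₀ (mu lam π S a) = l} with hT
    have hTf : T.Finite := hf.subset fun _ h => h.1
    rcases T.eq_empty_or_nonempty with h | h
    · simp [h]
    obtain ⟨t1, h1, hm⟩ := exists_min_image T List.length hTf h
    have dj : ∀ t t' : Nd, t ++ [false] <+: t' → Disjoint (π '' {x | x ∈ S ∧ t ++ [true] <+: lam x})
        (π '' {x | x ∈ S ∧ t' ++ [true] <+: lam x}) := fun t t' h => by
      rw [Set.disjoint_left]
      rintro _ ⟨x, hx, rfl⟩ ⟨y, hy, e⟩
      exact not_both hx.2 (hl _ _ e ▸ h.trans ((pre_app t' true).trans hy.2))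
    have := pack (fun t => π '' {x | x ∈ S ∧ t ++ [true] <+: lam x}) (s₀ ^ l) hTf.toFinset
      (π '' {x | x ∈ S ∧ t1 <+: lam x}) (toFinite _) (fun t ht => ?_) (fun t ht => ?_)
      fun t ht t' ht' hne => ?_
    · rw [← ncard_eq_toFinset_card T hTf] at this
      have h2 : mu lam π S t1 < s₀ ^ (l + 1) := h1.2 ▸ Nat.lt_pow_succ_log_self hs _
      rw [pow_succ'] at h2
      exact (Nat.lt_of_mul_lt_mul_right (this.trans_lt h2)).le
    · have ht := hTf.mem_toFinset.1 ht
      exact image_mono fun x hx => ⟨hx.1, (pre_of_len ((pre_app _ _).trans h1.1.1)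
        ((pre_app _ _).trans ht.1.1) (hm t ht)).trans ((pre_app t true).trans hx.2)⟩
    · have ht := hTf.mem_toFinset.1 ht
      exact (Nat.pow_le_pow_right (by omega) (ht.2 ▸ ht.1.2.2)).trans
        (Nat.pow_log_le_self s₀ ht.1.2.1.ne')
    · have ht := hTf.mem_toFinset.1 ht
      have ht' := hTf.mem_toFinset.1 ht'
      rcases pre_or_app ((pre_app t false).trans ht.1.1) ht'.1.1 with a | a
      · rcases pre_or_app ((pre_app t' false).trans ht'.1.1) ht.1.1 with b | b
        · exact absurd (pre_antisymm a b) hne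
        · exact dj t t' b
      · exact (dj t' t a).symm

end Pool.Agent.MP_da1f04_co.S91
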