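import Pool.Agent.MP_da1f04_co.S91.Spec
import Pool.Agent.MP_da1f04_co.I91.DerFine
import Pool.Agent.MP_da1f04_co.I91.Ht

/-! The induction on the clique number, and the choice of the parameters. -/

set_option autoImplicit false

namespace Pool.Agent.MP_da1f04_co.S91

open Set Function I91

theorem up_unif {P : ℕ → ℕ → Prop} (q : ℕ) (h : ∀ a, a < q → 1 ≤ a → ∃ c, P a c) :
    ∃ C, ∀ a, a < q → 1 ≤ a → ∃ c ≤ C, P a c := by
  choose! c hc using h
  exact ⟨∑ a ∈ Finset.range q, c a, fun a h1 h2 => ⟨c a, Finset.single_le_sum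
    (f := c) (fun _ _ => Nat.zero_le _) (Finset.mem_range.2 h1), hc a h1 h2⟩⟩

theorem up' (h1 : CsSt) (h2 : HomeSt) (h3 : TypeSt) : UpSt := by
  rintro C ⟨f, hf⟩ k q
  induction q using Nat.strong_induction_on with | _ q ih
  intro hq
  rcases hq.eq_or_lt with rfl | hq
  · refine ⟨1, fun U W J H _ _ cf s p r _ _ =>
      Kill.colorable ⟨fun _ => ⟨0, Nat.one_pos⟩, fun u v h _ => ?_⟩⟩
    rw [SimpleGraph.cliqueFree_two.1 cf] at h
    exact h
  obtain ⟨c0, hc0⟩ := up_unif q ih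
  obtain ⟨c1, hc1⟩ := up_unif q fun a _ ha => h1 k (2 ^ (2 * k * (k + 1))) a (q - a) c0 ha
  obtain ⟨c2, hc2⟩ := h2 k (2 * k * (k + 1)) (f q)
  refine ⟨c2 * (q * c1), fun U W J H cl ⟨e⟩ cf s p r hp hU => ?_⟩
  have := cl.finite
  have : Finite U := Finite.of_injective e e.injective
  obtain ⟨lam, D, cs, col, ht⟩ := I91.ht U W J q k _ e (derFine C f hf k q U W J H e cl hq cf)
  obtain ⟨φ, hφ⟩ := hc2 U J q lam D cs col ht
  rw [mul_assoc, mul_assoc]
  refine Kill.colorable (Kill.refine φ fun j => ?_)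
  refine (h3 {v // φ v = j} _ (J.comap Subtype.val) (lc lam cs ∘ Subtype.val) q
    (fun a => c0 * FF s p a) (fun u K hK hc => ?_) fun a ha haq S hS => ?_).elim
    fun ty ⟨κ, hty, hT⟩ => ?_
  rotate_left 2
  · refine Kill.refine (fun u => (⟨ty u, (hty u).2⟩ : Fin q)) fun a => ?_
    by_cases ha : 1 ≤ a.1
    swap
    · have key : ∀ v : {v // (⟨ty v, (hty v).2⟩ : Fin q) = a}, False := fun v =>
        ha (congrArg Fin.val v.2 ▸ (hty v.1).1)
      exact ⟨fun v => (key v).elim, fun v => (key v).elim⟩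
    obtain ⟨c, hc, hF⟩ := hc1 a a.2 ha
    have hi : Injective (Subtype.val ∘ Subtype.val : {u : {v // φ v = j} // ty u = a.1} → U) :=
      Subtype.val_injective.comp Subtype.val_injective
    have e1 : a.1 + (q - a.1) = q := Nat.add_sub_cancel' a.2.le
    obtain ⟨c', k1, -, k2⟩ := hF _ _ _ _ _ _ _ _ _ s p r
      (hφ _ _ hi fun u v => u.1.2.trans v.1.2.symm) (hT a.1)
      (by rw [e1]; exact cf.comap (SimpleGraph.Embedding.comap ⟨_, hi⟩ J).isContained) hp
      ((Nat.card_le_card_of_injective _ hi).trans hU)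
    rw [e1] at k1
    exact ⟨fun v => ⟨c' ⟨v.1, congrArg Fin.val v.2⟩,
      (k1 _).trans_le (Nat.mul_le_mul_right _ hc)⟩, fun u v h e =>
        k2 ⟨u.1, congrArg Fin.val u.2⟩ ⟨v.1, congrArg Fin.val v.2⟩ h (congrArg Fin.val e)⟩
  · refine ht.fib u.1 (t := K.map (Embedding.subtype _)) (fun x hx => ?_)
      ((hc.map (f := Embedding.subtype _)).mono (SimpleGraph.map_comap_le _ _))
    obtain ⟨y, hy, rfl⟩ := Finset.mem_map.1 (Finset.mem_coe.1 hx)
    have e1 : lam y.1 = lam u.1 := congrArg Prod.fst (hK hy)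
    have e2 : cs (lam y.1) y.1 = cs (lam u.1) u.1 := congrArg Prod.snd (hK hy)
    rw [e1] at e2
    exact ⟨e1, e2⟩
  · obtain ⟨c, hc, hF⟩ := hc0 a haq ha
    refine (hF S W _ H cl ⟨e.comp ((SimpleGraph.Embedding.comap (Embedding.subtype _) J).comp
      (SimpleGraph.Embedding.induce S))⟩ ((SimpleGraph.cliqueFree_induce_iff _ S _).2 hS) s p r hp
      ((Nat.card_le_card_of_injective (Subtype.val ∘ Subtype.val)
        (Subtype.val_injective.comp Subtype.val_injective)).trans hU)).mono ?_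
    exact Nat.mul_le_mul_right _ hc

theorem par : ParSt := by
  intro s hs
  obtain ⟨m, hm⟩ : ∃ m, m = Nat.log 2 s / 4 := ⟨_, rfl⟩
  have h1 : 2 ≤ 2 ^ (m + 1) := Nat.le_self_pow (Nat.succ_ne_zero m) 2
  have h2 : s < (m + 1) * (s / (m + 1) + 1) := Nat.lt_mul_div_succ s (Nat.succ_pos m)
  have h3 : 4 ^ m * 4 ^ m ≤ s := by
    refine le_trans (le_trans (le_of_eq ?_) (Nat.pow_le_pow_right two_pos
      (show 4 * m ≤ Nat.log 2 s by omega))) (Nat.pow_log_le_self 2 (by omega))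
    rw [← mul_pow, pow_mul]
    rfl
  have h4 : m + 1 ≤ 4 ^ m := Nat.lt_pow_self (by norm_num)
  have h5 : 4 ^ m ≤ s / (m + 1) :=
    (Nat.le_div_iff_mul_le (Nat.succ_pos m)).2 ((Nat.mul_le_mul_left _ h4).trans h3)
  have h6 : s / (m + 1) * (m + 1) ≤ s := Nat.div_mul_le_self _ _
  have h7 : s / (m + 1) ≤ s := Nat.div_le_self _ _
  refine ⟨s / (m + 1) + 1, 2 ^ (m + 1) - 1, ⟨by omega, by omega, ?_, ?_, by omega⟩, ?_⟩
  · rw [Nat.sub_add_cancel (by omega), ← pow_mul]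
    exact Nat.pow_le_pow_right two_pos h2.le
  · refine (Nat.pow_le_pow_left (Nat.sub_le _ 1) 2).trans ?_
    rw [← pow_mul, mul_comm, pow_mul, pow_succ]
    norm_num
    omega
  · have h8 : Nat.log 2 s ≤ s := Nat.log_le_self 2 s
    have h9 : s / (m + 1) * Nat.log 2 s ≤ s / (m + 1) * (4 * (m + 1)) :=
      Nat.mul_le_mul_left _ (by omega)
    rw [mul_left_comm] at h9
    rw [add_mul]
    omega

end Pool.Agent.MP_da1f04_co.S91
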