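import Pool.Agent.MP_da1f04_co.S91.Exp
import Pool.Agent.MP_da1f04_co.S91.Ren
import Pool.Agent.MP_da1f04_co.S91.Phase
import Pool.Agent.MP_da1f04_co.S91.Turn
import Pool.Agent.MP_da1f04_co.S91.Mark
import Pool.Agent.MP_da1f04_co.S91.Fin
import Pool.Agent.MP_da1f04_co.S91.Level
import Pool.Agent.MP_da1f04_co.S91.Split
import Pool.Agent.MP_da1f04_co.S91.Inner
import Pool.Agent.MP_da1f04_co.S91.Step
import Pool.Agent.MP_da1f04_co.S91.Home
import Pool.Agent.MP_da1f04_co.S91.Type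
import Pool.Agent.MP_da1f04_co.S91.Up

/-! The order of magnitude of the largest chromatic number. -/

set_option autoImplicit false

namespace Pool.Agent.MP_da1f04_co.S91

open SimpleGraph

theorem upSt : UpSt := up' (cs (stepSt (level ren (phase turn mark) fin) split) innerSt) home typeSt

theorem Cl.base_mono' {C : GClass}
    (hT : ∀ (V : Type) (G : SimpleGraph V), Finite V → Nat.card V ≤ 2 → C V G)
    {k : ℕ} {V : Type} {G : SimpleGraph V} (h : Cl Tiny k V G) : Cl C k V G := by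
  induction h with
  | base V G h1 h2 => exact .base V G h1 (hT V G h1 h2)
  | iso V W G H _ e ih => exact .iso V W G H ih e
  | subst V G s v h1 h2 _ _ h3 h4 => exact .subst V G s v h1 h2 h3 h4
  | glue V G a b h1 h2 h3 _ _ h4 h5 => exact .glue V G a b h1 h2 h3 h4 h5

theorem log_ge (s : ℕ) (hs : 2 ≤ s) : Real.log s ≤ 2 * (Nat.log 2 s : ℝ) := by
  have h0 : 1 ≤ Nat.log 2 s := Nat.log_pos one_lt_two hs
  have h1 : s ≤ 2 ^ (Nat.log 2 s + 1) := (Nat.lt_pow_succ_log_self one_lt_two s).le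
  have h2 : Real.log s ≤ Real.log ((2 : ℝ) ^ (Nat.log 2 s + 1)) :=
    Real.log_le_log (by exact_mod_cast (by omega : 0 < s)) (by exact_mod_cast h1)
  rw [Real.log_pow] at h2
  have h3 := Real.log_two_lt_d9
  have h4 : (1 : ℝ) ≤ (Nat.log 2 s : ℝ) := by exact_mod_cast h0
  push_cast at h2
  nlinarith

theorem sharp (C : GClass) (hC : ChiBounded C)
    (hT : ∀ (V : Type) (G : SimpleGraph V), Finite V → Nat.card V ≤ 2 → C V G) (k m : ℕ)
    (hk : 2 ≤ k) (hm : 1 ≤ m) :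
    ∃ c : ℝ, 0 < c ∧ ∀ s : ℕ, 2 ≤ s →
      (∀ (U W : Type) (J : SimpleGraph U) (H : SimpleGraph W), Cl C k W H → Nonempty (J ↪g H) →
        J.CliqueFree (m + 2) → Nat.card U ≤ 2 ^ (2 ^ s) →
          J.Colorable ⌊c * ((s : ℝ) ^ m / Real.log s ^ (m - 1))⌋₊) ∧
      ∃ (W : Type) (H : SimpleGraph W), Cl C k W H ∧ H.CliqueFree (m + 2) ∧
        Nat.card W ≤ 2 ^ (2 ^ s) ∧
          ∀ n : ℕ, H.Colorable n → (s : ℝ) ^ m / Real.log s ^ (m - 1) ≤ c * n := by
  obtain ⟨j, rfl⟩ : ∃ j, m = j + 1 := ⟨m - 1, by omega⟩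
  obtain ⟨c₀, h₀⟩ := upSt C hC k (j + 2) (by omega)
  obtain ⟨c₁, h₁⟩ := low' (j + 1)
  simp only [Nat.add_sub_cancel] at h₁ ⊢
  refine ⟨c₀ * 16 ^ j + c₁ * 6 ^ j + 1, by positivity, fun s hs => ⟨?_, ?_⟩⟩
  · intro U W J H h e cf hn
    obtain ⟨p, r, hp, hl⟩ := par s hs
    refine (h₀ U W J H h e cf s p r hp hn).mono (Nat.le_floor ?_)
    have l0 : 0 < Real.log s := Real.log_pos (by exact_mod_cast (by omega : 1 < s))
    have l1 : (p : ℝ) * Real.log s ≤ 16 * s := by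
      have a : (p : ℝ) * (Nat.log 2 s : ℝ) ≤ 8 * s := by exact_mod_cast hl
      nlinarith [mul_le_mul_of_nonneg_left (log_ge s hs) (Nat.cast_nonneg p : (0 : ℝ) ≤ p)]
    have l2 := pow_le_pow_left₀ (by positivity) l1 j
    rw [mul_pow, mul_pow] at l2
    rw [← mul_div_assoc, le_div_iff₀ (pow_pos l0 j)]
    simp only [FF]
    push_cast
    calc (c₀ : ℝ) * (s * p ^ j) * Real.log s ^ j = c₀ * s * (p ^ j * Real.log s ^ j) := by ring
      _ ≤ c₀ * s * (16 ^ j * s ^ j) := by gcongr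
      _ = c₀ * 16 ^ j * s ^ (j + 1) := by ring
      _ ≤ _ := by
        gcongr
        rw [add_assoc]
        exact le_add_of_nonneg_right (by positivity)
  · obtain ⟨W, G, r, h1, h2, h3, h4, h5⟩ := h₁ s
    refine ⟨W, G, Cl.base_mono' hT (h1.mono hk), h2, h3, fun n hn => ?_⟩
    have l0 : 0 < Real.log s := Real.log_pos (by exact_mod_cast (by omega : 1 < s))
    have h7 : (r : ℝ) ≤ n := by exact_mod_cast h4 n hn
    have h8 : (s : ℝ) ^ (j + 1) ≤ c₁ * r * ((Nat.log 2 (s + 1) + 1 : ℕ) : ℝ) ^ j := by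
      exact_mod_cast (Nat.pow_le_pow_left (Nat.le_succ s) _).trans h5
    have h9 := pow_le_pow_left₀ (Nat.cast_nonneg _) (log_le s hs) j
    rw [mul_pow] at h9
    rw [div_le_iff₀ (pow_pos l0 j)]
    calc (s : ℝ) ^ (j + 1) ≤ c₁ * n * (6 ^ j * Real.log s ^ j) := h8.trans (by gcongr)
      _ = c₁ * 6 ^ j * n * Real.log s ^ j := by ring
      _ ≤ _ := by
        gcongr
        nlinarith [show (0 : ℝ) ≤ c₀ * 16 ^ j by positivity]

end Pool.Agent.MP_da1f04_co.S91
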