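import Pool.Agent.MP_da1f04_co.I91.Tools

/-! Definitions and statements of the steps for the sharp upper bound. -/

set_option autoImplicit false

namespace Pool.Agent.MP_da1f04_co.S91

open Set Function I91

section level

variable {V X Z : Type} (lam : V → Nd) (π : V → X) (z : V → Z) (b : Z → Nd)
  (E : V → V → Nd → Prop)

/-- One level: leaves, units, zones with their birth nodes, and events. -/
structure LV (k : ℕ) : Prop where
  lf : ∀ u v, π u = π v → lam u = lam v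
  zn : ∀ u v, π u = π v → z u = z v
  born : ∀ u, b (z u) <+: lam u
  ev : ∀ u x t, E u x t → t ++ [true] <+: lam u ∧ t ++ [false] <+: lam x ∧ b (z u) <+: t
  outer : ∀ u x t, E u x t → z u ≠ z x → t ++ [false] <+: b (z x)
  heads : ∀ t, (π '' {x | ∃ u, E u x t}).ncard ≤ k
  one : ∀ u x t u' x' t' s, E u x t → E u' x' t' → b (z u) <+: s → s <+: t → b (z u') <+: s →
    s <+: t' → z u = z u'

/-- Times of events that leave the zone. -/
def Df (ζ : Z) (t : Nd) : Prop := ∃ u x, E u x t ∧ z u = ζ ∧ z x ≠ ζ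

/-- Times of events inside the zone whose head sees a later event that leaves the zone. -/
def Bad (ζ : Z) (t : Nd) : Prop := ∃ u x, E u x t ∧ z u = ζ ∧ z x = ζ ∧
  ∃ t', Df z E ζ t' ∧ t ++ [false] <+: t' ∧ t' ++ [true] <+: lam x

/-- Few such times on every path. -/
def Few (δ : ℕ) : Prop :=
  ∀ ζ p, {t | (Df z E ζ t ∨ Bad lam z E ζ t) ∧ t ++ [true] <+: p}.ncard ≤ δ

/-- A union of units. -/
def Sat (S : Set V) : Prop := ∀ u v, π u = π v → u ∈ S → v ∈ S

/-- Every zone has at most `W` units in `S`. -/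
def Thin (S : Set V) (W : ℕ) : Prop := ∀ ζ, (π '' {u | u ∈ S ∧ z u = ζ}).ncard ≤ W

/-- The events with both ends in `S`. -/
def On (S : Set V) : V → V → Nd → Prop := fun u x t => E u x t ∧ u ∈ S ∧ x ∈ S

/-- The number of units of `S` below a node. -/
noncomputable def mu (S : Set V) (s : Nd) : ℕ := (π '' {x | x ∈ S ∧ s <+: lam x}).ncard

/-- The objects below `s` that are marked at a time above `p`. -/
def Mkd (lf : X → Nd) (tg : Nd → Set X) (Mk : Nd → Prop) (p s : Nd) : Set X :=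
  {a | s <+: lf a ∧ ∃ t, Mk t ∧ t ++ [false] <+: p ∧ a ∈ tg t}

end level

/-- Renaming the inner colours along the tree. -/
def RenSt : Prop :=
  ∀ (V X Z : Type) [Finite V] (lam : V → Nd) (π : V → X) (z : V → Z) (b : Z → Nd)
    (E : V → V → Nd → Prop) (k ρ h δ : ℕ) (ι : V → ℕ), LV lam π z b E k → (∀ u, ι u < ρ) →
    (∀ u x t, E u x t → z u = z x → ι u ≠ ι x) →
    (∀ t, ((fun x => (π x, ι x)) '' {x | ∃ u, E u x t}).ncard ≤ h) → Few lam z E δ →
    ∃ c : V → ℕ, (∀ u, c u < ρ + h * (δ + 1)) ∧ (∀ u v, π u = π v → (c u = c v ↔ ι u = ι v)) ∧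
      ∀ u x t, E u x t → c u ≠ c x

/-- Turns at which the level drops and turns at which it does not. -/
def TurnSt : Prop :=
  ∀ (V X : Type) [Finite V] (lam : V → Nd) (π : V → X) (S : Set V) (r s₀ : ℕ),
    (∀ u v, π u = π v → lam u = lam v) → 1 < s₀ → (π '' S).ncard < s₀ ^ (r + 1) → ∀ p : Nd,
    {t | t ++ [true] <+: p ∧
      Nat.log s₀ (mu lam π S (t ++ [true])) < Nat.log s₀ (mu lam π S t)}.ncard ≤ r ∧
    {t | t ++ [false] <+: p ∧ 0 < mu lam π S (t ++ [true]) ∧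
      Nat.log s₀ (mu lam π S t) ≤ Nat.log s₀ (mu lam π S (t ++ [true]))}.ncard ≤ (r + 1) * s₀

/-- Marking from the top with a cap. -/
def MarkSt : Prop :=
  ∀ (X : Type) (lf : X → Nd) (tg : Nd → Set X) (Want : Nd → Prop) (k W : ℕ),
    (∀ t, (tg t).Finite ∧ (tg t).ncard ≤ k) → ∃ Mk : Nd → Prop, (∀ t, Mk t → Want t) ∧
      (∀ t, Want t → ¬ Mk t → W < (Mkd lf tg Mk t (t ++ [false])).ncard) ∧
      ∀ s, (Mkd lf tg Mk s s).Finite ∧ (Mkd lf tg Mk s s).ncard ≤ W + k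

/-- One phase. -/
def PhaseSt : Prop :=
  ∀ (V X Z : Type) [Finite V] (lam : V → Nd) (π : V → X) (z : V → Z) (b : Z → Nd)
    (E : V → V → Nd → Prop) (k r s₀ W : ℕ) (S : Set V), LV lam π z b E k → Sat π S →
    (∀ u x t, E u x t → u ∈ S ∧ x ∈ S) → 1 < s₀ → W < s₀ ^ (r + 1) → Thin π z S W →
    ∃ S' ⊆ S, Sat π S' ∧ Thin π z S' (2 * k * (k + 2) * ((r + 1) * s₀)) ∧
      Few lam z (On E S'ᶜ) (r + 3)

/-- The last step. -/
def FinSt : Prop :=
  ∀ (V X Z : Type) [Finite V] (lam : V → Nd) (π : V → X) (z : V → Z) (b : Z → Nd)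
    (E : V → V → Nd → Prop) (k W : ℕ) (S : Set V), LV lam π z b E k →
    (∀ u x t, E u x t → u ∈ S ∧ x ∈ S) → Thin π z S W →
    ∃ φ : X → ℕ, (∀ a, φ a < 2 * (W * k) + 1) ∧ ∀ u x t, E u x t → φ (π u) ≠ φ (π x)

/-- All the phases. -/
def LevelSt : Prop :=
  ∀ k : ℕ, ∃ C : ℕ, ∀ (V X Z : Type) [Finite V] (lam : V → Nd) (π : V → X) (z : V → Z)
    (b : Z → Nd) (E : V → V → Nd → Prop) (ρ h A s p r : ℕ) (ι κ : V → ℕ), LV lam π z b E k →
    (∀ u, ι u < ρ) → (∀ u, κ u < A) → (∀ u v, π u = π v → κ u = κ v → ι u = ι v) →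
    (∀ u x t, E u x t → z u = z x → ι u ≠ ι x) →
    (∀ t, ((fun x => (π x, ι x)) '' {x | ∃ u, E u x t}).ncard ≤ h) →
    1 ≤ r → 2 ^ s ≤ (r + 1) ^ p → Nat.card V ≤ 2 ^ 2 ^ s →
    ∃ c : V → ℕ, (∀ u, c u < p * (ρ + 5 * (h * r)) + C * (r ^ 2 * A)) ∧
      (∀ u v, π u = π v → κ u = κ v → c u = c v) ∧
      (∀ u v, π u = π v → κ u ≠ κ v → ι u ≠ ι v → c u ≠ c v) ∧ ∀ u x t, E u x t → c u ≠ c x

section clean

variable {V X Y : Type} (G : SimpleGraph V) (lam : V → Nd) (π : V → X)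

/-- The clean structure. -/
structure CS (cl : Nd → V → Y) (al : V → Nd → Prop) (k g : ℕ) : Prop where
  lf : ∀ u v, π u = π v → lam u = lam v
  adj : ∀ u v, G.Adj u v → π u = π v ∨ Out G lam u v ∨ Out G lam v u
  mod : ∀ u v y, π u = π v → Out G lam u y → G.Adj v y
  targ : ∀ t, (cl t '' {x | ∃ u, out G lam u x t}).ncard ≤ k
  twin : ∀ t u x u' x', out G lam u x t → out G lam u' x' t → cl t x = cl t x' →
    π x = π x' ∧ ∀ v, π v = π x → G.Adj x v → G.Adj x' v ∨ G.Adj u v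
  live : ∀ u x t s, out G lam u x t → s <+: t → al u s
  keys : ∀ s, ((fun u => past G lam u s) '' {u | s <+: lam u ∧ al u s}).ncard ≤ g
  dead : ∀ s, (π '' {u | s <+: lam u ∧ ¬ al u s}).ncard ≤ g

/-- All units have clique number `a` and a colouring that is constant on twins. -/
structure Ty (κ : V → ℕ) (a A : ℕ) : Prop where
  free : ∀ u, G.CliqueFreeOn {v | π v = π u} (a + 1)
  big : ∀ u, ∃ K : Finset V, G.IsNClique a K ∧ ∀ v ∈ K, π v = π u
  lt : ∀ u, κ u < A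
  ne : ∀ u v, π u = π v → G.Adj u v → κ u ≠ κ v
  tw : ∀ u v, π u = π v → (∀ y, π y = π u → (G.Adj u y ↔ G.Adj v y)) → κ u = κ v

/-- A proper colouring that depends only on the unit and on the colour in the unit. -/
def Fine (κ : V → ℕ) (N : ℕ) : Prop :=
  ∃ c : V → ℕ, (∀ u, c u < N) ∧ (∀ u v, π u = π v → κ u = κ v → c u = c v) ∧
    ∀ u v, G.Adj u v → c u ≠ c v

/-- The edges inside the zones. -/
def inner : SimpleGraph V where
  Adj u v := G.Adj u v ∧ zone G lam u = zone G lam v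
  symm := ⟨fun _ _ h => ⟨h.1.symm, h.2.symm⟩⟩
  loopless := ⟨fun _ h => h.1.ne rfl⟩

end clean

/-- After a bounded split the zones form a level. -/
def SplitSt : Prop :=
  ∀ k g : ℕ, ∃ C : ℕ, ∀ (V X Y : Type) [Finite V] (G : SimpleGraph V) (lam : V → Nd) (π : V → X)
    (cl : Nd → V → Y) (al : V → Nd → Prop), CS G lam π cl al k g →
    ∃ φ : V → Fin C, (∀ u v, π u = π v → φ u = φ v) ∧ ∀ j, LV lam π (zone G lam) Prod.fst
      (fun u x t => out G lam u x t ∧ φ u = j ∧ φ x = j) k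

/-- The edges inside the zones form a clean structure with smaller clique number. -/
def InnerSt : Prop :=
  ∀ (V X Y : Type) [Finite V] (G : SimpleGraph V) (lam : V → Nd) (π : V → X)
    (cl : Nd → V → Y) (al : V → Nd → Prop) (k g : ℕ) (κ : V → ℕ) (a A : ℕ),
    CS G lam π cl al k g → Ty G π κ a A →
    CS (inner G lam) lam π cl al k g ∧ Ty (inner G lam) π κ a A ∧
      (∀ u v, π u = π v → G.Adj u v → (inner G lam).Adj u v) ∧
      (∀ d, G.CliqueFree (a + d + 2) → (inner G lam).CliqueFree (a + d + 1)) ∧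
      (G.CliqueFree (a + 1) → Fine G π κ A) ∧
      (∀ t, ((fun x => (π x, κ x)) '' {x | ∃ u, out G lam u x t}).ncard ≤ k * A) ∧
      (G.CliqueFree (a + 2) →
        ∀ t, ((fun x => (π x, κ x)) '' {x | ∃ u, out G lam u x t}).ncard ≤ k)

/-- From the inner edges to all edges. -/
def StepSt : Prop :=
  ∀ k g : ℕ, ∃ C : ℕ, ∀ (V X Y : Type) [Finite V] (G : SimpleGraph V) (lam : V → Nd) (π : V → X)
    (cl : Nd → V → Y) (al : V → Nd → Prop) (κ : V → ℕ) (a A ρ h s p r : ℕ),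
    CS G lam π cl al k g → Ty G π κ a A → Fine (inner G lam) π κ ρ →
    (∀ t, ((fun x => (π x, κ x)) '' {x | ∃ u, out G lam u x t}).ncard ≤ h) →
    1 ≤ r → 2 ^ s ≤ (r + 1) ^ p → Nat.card V ≤ 2 ^ 2 ^ s →
    Fine G π κ (C * (p * (ρ + h * r) + r ^ 2 * A))

/-- The target function. -/
def FF (s p : ℕ) : ℕ → ℕ
  | 0 => 1
  | 1 => 1
  | j + 2 => s * p ^ j

/-- Admissible parameters. -/
structure Par (s p r : ℕ) : Prop where
  s1 : 1 ≤ s
  r1 : 1 ≤ r
  pw : 2 ^ s ≤ (r + 1) ^ p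
  sq : r ^ 2 ≤ 4 * p
  ps : p ≤ 2 * s

/-- Clean structures of one type. -/
def CsSt : Prop :=
  ∀ k g a d c : ℕ, 1 ≤ a → ∃ C : ℕ, ∀ (V X Y : Type) [Finite V] (G : SimpleGraph V)
    (lam : V → Nd) (π : V → X) (cl : Nd → V → Y) (al : V → Nd → Prop) (κ : V → ℕ) (s p r : ℕ),
    CS G lam π cl al k g → Ty G π κ a (c * FF s p a) → G.CliqueFree (a + d + 1) → Par s p r →
    Nat.card V ≤ 2 ^ 2 ^ s → Fine G π κ (C * FF s p (a + d))

/-- A home tree splits into boundedly many clean structures. -/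
def HomeSt : Prop :=
  ∀ k w c : ℕ, ∃ C : ℕ, ∀ (V : Type) [Finite V] (G : SimpleGraph V) (q : ℕ) (lam : V → Nd)
    (D : Nd → Set V) (cl : Nd → V → Set V) (col : V → ℕ), HT G q k w c lam D cl col →
    ∃ φ : V → Fin C, ∀ (V' : Type) (f : V' → V), Injective f → (∀ u v, φ (f u) = φ (f v)) →
      CS (G.comap f) (lam ∘ f) (lc lam cl ∘ f) (fun t u => cl t (f u))
        (fun u s => ∀ u', lc lam cl u' = lc lam cl (f u) → Clean G lam D cl u' s) k (2 ^ w)

/-- Types and colourings of the units. -/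
def TypeSt : Prop :=
  ∀ (V X : Type) [Finite V] (G : SimpleGraph V) (π : V → X) (q : ℕ) (A : ℕ → ℕ),
    (∀ u, G.CliqueFreeOn {v | π v = π u} q) →
    (∀ a, 1 ≤ a → a < q → ∀ S : Set V, G.CliqueFreeOn S (a + 1) → (G.induce S).Colorable (A a)) →
    ∃ (ty κ : V → ℕ), (∀ u, 1 ≤ ty u ∧ ty u < q) ∧ ∀ a,
      Ty (G.comap (Subtype.val : {u // ty u = a} → V)) (π ∘ Subtype.val) (κ ∘ Subtype.val) a (A a)

/-- The upper bound in terms of the parameters. -/
def UpSt : Prop :=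
  ∀ C : GClass, ChiBounded C → ∀ k q : ℕ, 1 ≤ q → ∃ c : ℕ, ∀ (U W : Type) (J : SimpleGraph U)
    (H : SimpleGraph W), Cl C k W H → Nonempty (J ↪g H) → J.CliqueFree (q + 1) →
    ∀ s p r, Par s p r → Nat.card U ≤ 2 ^ 2 ^ s → J.Colorable (c * FF s p q)

/-- Good parameters exist. -/
def ParSt : Prop := ∀ s, 2 ≤ s → ∃ p r, Par s p r ∧ p * Nat.log 2 s ≤ 8 * s

end Pool.Agent.MP_da1f04_co.S91
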