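import Pool.Agent.MP_da1f04_co.S91.Spec

/-! Types and colourings of the units. -/

set_option autoImplicit false

namespace Pool.Agent.MP_da1f04_co.S91

open Set Function I91

theorem type_num {V : Type} (G : SimpleGraph V) (S : Set V) (q : ℕ) (u : V) (hu : u ∈ S)
    (hq : G.CliqueFreeOn S q) : ∃ a, 1 ≤ a ∧ a < q ∧ G.CliqueFreeOn S (a + 1) ∧
      ∃ K : Finset V, G.IsNClique a K ∧ (K : Set V) ⊆ S := by
  classical
  have ex : ∃ n, G.CliqueFreeOn S n := ⟨q, hq⟩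
  have h1 : G.CliqueFreeOn S (Nat.find ex) := Nat.find_spec ex
  have h2 : Nat.find ex ≤ q := Nat.find_min' ex hq
  have h3 : 1 < Nat.find ex :=
    (SimpleGraph.cliqueFreeOn_singleton G).1
      (SimpleGraph.CliqueFreeOn.subset G (singleton_subset_iff.2 hu) h1)
  have h4 : ¬ G.CliqueFreeOn S (Nat.find ex - 1) := Nat.find_min ex (by omega)
  refine ⟨Nat.find ex - 1, by omega, by omega, by rwa [Nat.sub_add_cancel h3.le], ?_⟩
  by_contra hn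
  exact h4 fun t ht hc => hn ⟨t, hc, ht⟩

theorem type_col {V : Type} (G : SimpleGraph V) (S : Set V) (n : ℕ) (u₀ : V) (hu : u₀ ∈ S)
    (hc : (G.induce S).Colorable n) : ∃ κ : V → ℕ, (∀ u, κ u < n) ∧
      (∀ u ∈ S, ∀ v ∈ S, G.Adj u v → κ u ≠ κ v) ∧
      ∀ u v, (∀ y ∈ S, G.Adj u y ↔ G.Adj v y) → κ u = κ v := by
  obtain ⟨col⟩ := hc
  have ex : ∀ T : Set V, ∃ r : S, (∃ v ∈ S, {y | y ∈ S ∧ G.Adj v y} = T) →
      {y | y ∈ S ∧ G.Adj r y} = T := by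
    intro T
    by_cases h : ∃ v ∈ S, {y | y ∈ S ∧ G.Adj v y} = T
    · obtain ⟨v, hv, e⟩ := h
      exact ⟨⟨v, hv⟩, fun _ => e⟩
    · exact ⟨⟨u₀, hu⟩, fun h' => (h h').elim⟩
  choose rep hrep using ex
  refine ⟨fun u => (col (rep {y | y ∈ S ∧ G.Adj u y}) : ℕ), fun u => Fin.is_lt _,
    fun u hu v hv h e => ?_, fun u v h => ?_⟩
  · have e1 := hrep _ ⟨u, hu, rfl⟩
    have e2 := hrep _ ⟨v, hv, rfl⟩
    have a1 : G.Adj (rep {y | y ∈ S ∧ G.Adj u y}) v := (e1.ge (⟨hv, h⟩ : v ∈ S ∧ G.Adj u v)).2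
    have a2 := (e2.ge (⟨(rep {y | y ∈ S ∧ G.Adj u y}).2, a1.symm⟩ : _ ∈ S ∧ G.Adj v _)).2
    exact col.valid (v := rep _) (w := rep _) a2.symm (Fin.ext e)
  · have e : {y | y ∈ S ∧ G.Adj u y} = {y | y ∈ S ∧ G.Adj v y} :=
      Set.ext fun y => and_congr_right (h y)
    simp only [e]

theorem typeSt : TypeSt := by
  classical
  intro V X _ G π q A hq hA
  have ex : ∀ x : X, ∃ (a : ℕ) (κ : V → ℕ), (∃ u, π u = x) → 1 ≤ a ∧ a < q ∧
      G.CliqueFreeOn {v | π v = x} (a + 1) ∧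
      (∃ K : Finset V, G.IsNClique a K ∧ (K : Set V) ⊆ {v | π v = x}) ∧ (∀ u, κ u < A a) ∧
      (∀ u, π u = x → ∀ v, π v = x → G.Adj u v → κ u ≠ κ v) ∧
      ∀ u v, (∀ y, π y = x → (G.Adj u y ↔ G.Adj v y)) → κ u = κ v := by
    intro x
    by_cases h : ∃ u, π u = x
    · obtain ⟨u, rfl⟩ := h
      obtain ⟨a, h1, h2, h3, h4⟩ := type_num G {v | π v = π u} q u rfl (hq u)
      obtain ⟨κ, k1, k2, k3⟩ := type_col G {v | π v = π u} _ u rfl (hA a h1 h2 _ h3)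
      exact ⟨a, κ, fun _ => ⟨h1, h2, h3, h4, k1, k2, k3⟩⟩
    · exact ⟨0, fun _ => 0, fun h' => (h h').elim⟩
  choose ty κ H using ex
  refine ⟨fun u => ty (π u), fun u => κ (π u) u,
    fun u => ⟨(H _ ⟨u, rfl⟩).1, (H _ ⟨u, rfl⟩).2.1⟩, fun a => ⟨?_, ?_, ?_, ?_, ?_⟩⟩
  · rintro ⟨u, rfl⟩ t ht hc
    refine (H _ ⟨u, rfl⟩).2.2.1 (t := t.map (Embedding.subtype _)) ?_ ⟨?_, ?_⟩
    · intro v hv
      obtain ⟨w, hw, rfl⟩ := Finset.mem_map.1 hv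
      exact ht hw
    · intro v hv v' hv' ne
      obtain ⟨w, hw, rfl⟩ := Finset.mem_map.1 hv
      obtain ⟨w', hw', rfl⟩ := Finset.mem_map.1 hv'
      exact hc.1 hw hw' fun e => ne (congrArg _ e)
    · rw [Finset.card_map]; exact hc.2
  · rintro ⟨u, rfl⟩
    obtain ⟨K, hK, sub⟩ := (H _ ⟨u, rfl⟩).2.2.2.1
    refine ⟨K.subtype _, ⟨?_, ?_⟩, fun v hv => sub (Finset.mem_subtype.1 hv)⟩
    · intro v hv v' hv' ne
      exact hK.1 (Finset.mem_subtype.1 hv) (Finset.mem_subtype.1 hv') fun e => ne (Subtype.ext e)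
    · rw [Finset.card_subtype, Finset.filter_true_of_mem fun v hv => congrArg ty (sub hv)]
      exact hK.2
  · rintro ⟨u, rfl⟩
    exact (H _ ⟨u, rfl⟩).2.2.2.2.1 u
  · rintro ⟨u, hu⟩ ⟨v, hv⟩ e h
    have e' : π u = π v := e
    show κ (π u) u ≠ κ (π v) v
    rw [← e']
    exact (H _ ⟨u, rfl⟩).2.2.2.2.2.1 u rfl v e'.symm h
  · rintro ⟨u, hu⟩ ⟨v, hv⟩ e h
    have e' : π u = π v := e
    show κ (π u) u = κ (π v) v
    rw [← e']
    exact (H _ ⟨u, rfl⟩).2.2.2.2.2.2 u v fun y hy => h ⟨y, (congrArg ty hy).trans hu⟩ hy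

end Pool.Agent.MP_da1f04_co.S91
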